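import Pool.Agent.Q83.Wset.Dual

open MeasureTheory Topology Set Filter
open scoped ComplexConjugate ENNReal

namespace Pool.Agent.Q83.Wset

/-- build an element from its coordinates -/
noncomputable def mkM (f : ℤ → ZMod 3) (h : ∃ N : ℕ, ∀ i : ℤ, (N : ℤ) ≤ i → f i = 0) : M :=
  Multiplicative.ofAdd ⟨f, h⟩

@[simp] lemma cm_mkM (f : ℤ → ZMod 3) (h : ∃ N : ℕ, ∀ i : ℤ, (N : ℤ) ≤ i → f i = 0) (i : ℤ) :
    cm (mkM f h) i = f i := rfl

lemma cm_ev (x : M) : ∃ N : ℕ, ∀ i : ℤ, (N : ℤ) ≤ i → cm x i = 0 := (Multiplicative.toAdd x).2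

lemma hom_cont {f : M →* M} (h : ∀ n : ℤ, ∃ m : ℤ, ∀ x ∈ cs m 1, f x ∈ cs n 1) :
    Continuous f := by
  apply continuous_of_continuousAt_one f
  intro W hW
  rw [map_one] at hW
  obtain ⟨n, hn⟩ := U_basis (V := W) hW
  obtain ⟨m, hm⟩ := h n
  have h1 : cs m 1 ∈ 𝓝 (1 : M) := (cs_isOpen m 1).mem_nhds (cs_self m 1)
  refine Filter.mem_map.2 (Filter.mem_of_superset h1 fun x hx => ?_)
  have h2 : (f x : M) ∈ cs n 1 := hm x hx
  exact hn (show Multiplicative.toAdd (f x) ∈ (U n : Set G0) from h2)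

/-- permutations of coordinates with bounded displacement -/
noncomputable def perm (π : ℤ ≃ ℤ) (C : ℕ) (hπ : ∀ j, |π j - j| ≤ C) : M ≃* M where
  toFun x := mkM (fun j => cm x (π j)) (by
    obtain ⟨N, hN⟩ := cm_ev x
    refine ⟨N + C, fun i hi => hN _ ?_⟩
    have := abs_le.1 (hπ i)
    push_cast at hi
    omega)
  invFun x := mkM (fun j => cm x (π.symm j)) (by
    obtain ⟨N, hN⟩ := cm_ev x
    refine ⟨N + C, fun i hi => hN _ ?_⟩
    have := abs_le.1 (hπ (π.symm i))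
    rw [Equiv.apply_symm_apply] at this
    push_cast at hi
    omega)
  left_inv x := cm_ext fun i => by simp
  right_inv x := cm_ext fun i => by simp
  map_mul' x y := cm_ext fun i => by simp

@[simp] lemma cm_perm (π : ℤ ≃ ℤ) (C : ℕ) (hπ : ∀ j, |π j - j| ≤ C) (x : M) (j : ℤ) :
    cm (perm π C hπ x) j = cm x (π j) := rfl

@[simp] lemma cm_perm_symm (π : ℤ ≃ ℤ) (C : ℕ) (hπ : ∀ j, |π j - j| ≤ C) (x : M) (j : ℤ) :
    cm ((perm π C hπ).symm x) j = cm x (π.symm j) := rfl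

/-- `x ↦ x + c ⟨τ, x⟩ e_0` -/
noncomputable def shr (τ : ℤ →₀ ZMod 3) (c : ZMod 3) (x : M) : M :=
  mkM (fun j => cm x j + if j = 0 then c * pr τ x else 0) (by
    obtain ⟨N, hN⟩ := cm_ev x
    refine ⟨N + 1, fun i hi => ?_⟩
    push_cast at hi
    rw [hN i (by omega), if_neg (by omega), add_zero])

@[simp] lemma cm_shr (τ : ℤ →₀ ZMod 3) (c : ZMod 3) (x : M) (j : ℤ) :
    cm (shr τ c x) j = cm x j + if j = 0 then c * pr τ x else 0 := rfl

lemma pr_congr {τ : ℤ →₀ ZMod 3} {x x' : M} (h : ∀ j, τ j ≠ 0 → cm x j = cm x' j) :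
    pr τ x = pr τ x' := by
  unfold pr Finsupp.sum
  refine Finset.sum_congr rfl fun j hj => ?_
  show τ j * cm x j = τ j * cm x' j
  rw [h j (Finsupp.mem_support_iff.1 hj)]

lemma pr_shr {τ : ℤ →₀ ZMod 3} (hτ : τ 0 = 0) (c : ZMod 3) (x : M) :
    pr τ (shr τ c x) = pr τ x := by
  apply pr_congr
  intro j hj
  rw [cm_shr, if_neg, add_zero]
  rintro rfl
  exact hj hτ

/-- the shear as a group automorphism -/
noncomputable def shear (τ : ℤ →₀ ZMod 3) (hτ : τ 0 = 0) : M ≃* M where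
  toFun := shr τ 1
  invFun := shr τ (-1)
  left_inv x := cm_ext fun i => by
    rw [cm_shr, cm_shr, pr_shr hτ]
    split_ifs <;> ring
  right_inv x := cm_ext fun i => by
    rw [cm_shr, cm_shr, pr_shr hτ]
    split_ifs <;> ring
  map_mul' x y := cm_ext fun i => by
    simp only [cm_shr, cm_mul, pr_mul]
    split_ifs <;> ring

lemma pr_bound (τ : ℤ →₀ ZMod 3) : ∃ m : ℤ, ∀ x ∈ cs m 1, pr τ x = 0 := by
  obtain ⟨m, hm⟩ : ∃ m : ℤ, ∀ i ∈ τ.support, m ≤ i := by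
    obtain ⟨m, hm⟩ := τ.support.bddBelow
    exact ⟨m, hm⟩
  refine ⟨m, fun x hx => ?_⟩
  rw [← pr_one τ]
  apply pr_congr
  intro j hj
  exact hx j (hm j (Finsupp.mem_support_iff.2 hj))

lemma perm_cont (π : ℤ ≃ ℤ) (C : ℕ) (hπ : ∀ j, |π j - j| ≤ C) :
    Continuous (perm π C hπ) ∧ Continuous (perm π C hπ).symm := by
  constructor
  · refine hom_cont (f := (perm π C hπ).toMonoidHom) fun n => ⟨n - C, fun x hx j hj => ?_⟩
    show cm x (π j) = 0
    apply hx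
    have := abs_le.1 (hπ j)
    omega
  · refine hom_cont (f := (perm π C hπ).symm.toMonoidHom) fun n => ⟨n - C, fun x hx j hj => ?_⟩
    show cm x (π.symm j) = 0
    apply hx
    have := abs_le.1 (hπ (π.symm j))
    rw [Equiv.apply_symm_apply] at this
    omega

lemma shear_cont (τ : ℤ →₀ ZMod 3) (hτ : τ 0 = 0) :
    Continuous (shear τ hτ) ∧ Continuous (shear τ hτ).symm := by
  obtain ⟨m, hm⟩ := pr_bound τ
  constructor
  · refine hom_cont (f := (shear τ hτ).toMonoidHom) fun n => ⟨min n m, fun x hx j hj => ?_⟩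
    show cm x j + _ = 0
    rw [hm x (cs_mono (min_le_right _ _) 1 hx), hx j ((min_le_left _ _).trans hj)]
    simp
  · refine hom_cont (f := (shear τ hτ).symm.toMonoidHom) fun n => ⟨min n m, fun x hx j hj => ?_⟩
    show cm x j + _ = 0
    rw [hm x (cs_mono (min_le_right _ _) 1 hx), hx j ((min_le_left _ _).trans hj)]
    simp

/-- `a = shear ∘ perm` -/
noncomputable def aut (π : ℤ ≃ ℤ) (C : ℕ) (hπ : ∀ j, |π j - j| ≤ C) (τ : ℤ →₀ ZMod 3) (hτ : τ 0 = 0) :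
    M ≃ₜ* M :=
  { (perm π C hπ).trans (shear τ hτ) with
    continuous_toFun := (shear_cont τ hτ).1.comp (perm_cont π C hπ).1
    continuous_invFun := (perm_cont π C hπ).2.comp (shear_cont τ hτ).2 }

lemma cm_aut (π : ℤ ≃ ℤ) (C : ℕ) (hπ : ∀ j, |π j - j| ≤ C) (τ : ℤ →₀ ZMod 3) (hτ : τ 0 = 0)
    (x : M) (j : ℤ) : cm (aut π C hπ τ hτ x) j
      = cm x (π j) + if j = 0 then 1 * pr τ (perm π C hπ x) else 0 := rfl

lemma pr_perm (π : ℤ ≃ ℤ) (C : ℕ) (hπ : ∀ j, |π j - j| ≤ C) (q : ℤ →₀ ZMod 3) (x : M) :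
    pr q (perm π C hπ x) = pr (Finsupp.equivMapDomain π q) x := by
  unfold pr
  rw [Finsupp.sum_equivMapDomain]
  rfl

lemma pr_smul (c : ZMod 3) (q : ℤ →₀ ZMod 3) (x : M) : pr (c • q) x = c * pr q x := by
  unfold pr
  rw [Finsupp.sum_smul_index (by simp), Finsupp.mul_sum]
  simp only [mul_assoc]

/-- adding a multiple of the unit vector -/
lemma pr_shr' (τ p : ℤ →₀ ZMod 3) (c : ZMod 3) (x : M) :
    pr p (shr τ c x) = pr p x + p 0 * (c * pr τ x) := by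
  have h : ∀ j : ℤ, cm (shr τ c x) j = cm x j + if j = 0 then c * pr τ x else 0 := fun j => rfl
  unfold pr at *
  unfold Finsupp.sum at *
  simp only [h, mul_add, Finset.sum_add_distrib, mul_ite, mul_zero]
  congr 1
  rw [Finset.sum_ite_eq']
  split_ifs with h0
  · rfl
  · rw [Finsupp.notMem_support_iff.1 h0, zero_mul]

lemma pr_aut (π : ℤ ≃ ℤ) (C : ℕ) (hπ : ∀ j, |π j - j| ≤ C) (τ : ℤ →₀ ZMod 3) (hτ : τ 0 = 0)
    (p : ℤ →₀ ZMod 3) (x : M) :
    pr p (aut π C hπ τ hτ x) = pr (Finsupp.equivMapDomain π (p + p 0 • τ)) x := by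
  show pr p (shr τ 1 (perm π C hπ x)) = _
  rw [pr_shr', ← pr_perm π C hπ, pr_add, pr_smul, one_mul]

end Pool.Agent.Q83.Wset
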