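import Pool.Agent.Q83.Wset.Vanish

open MeasureTheory Topology Set Filter
open scoped ComplexConjugate ENNReal

namespace Pool.Agent.Q83.Wset

noncomputable instance instMSD : MeasurableSpace (PontryaginDual M) := borel _
instance instBSD : BorelSpace (PontryaginDual M) := ⟨rfl⟩

lemma M_cube (v : M) : v ^ 3 = 1 := by
  apply cm_ext
  intro i
  rw [pow_succ, pow_two, cm_mul, cm_mul, cm_one]
  generalize cm v i = c
  revert c
  decide

lemma char_cube (χ : PontryaginDual M) (v : M) : (χ v) ^ 3 = 1 := by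
  rw [← map_pow, M_cube, map_one]

lemma om_sq : ((ZMod.toCircle (1 : ZMod 3) : Circle) : ℂ) ^ 2
    + ((ZMod.toCircle (1 : ZMod 3) : Circle) : ℂ) + 1 = 0 := by
  set w : ℂ := ((ZMod.toCircle (1 : ZMod 3) : Circle) : ℂ) with hw
  have h3 : w ^ 3 = 1 := by
    rw [hw, ← Circle.coe_pow, ← AddChar.map_nsmul_eq_pow]
    have : (3 : ℕ) • (1 : ZMod 3) = 0 := by decide
    rw [this]; simp
  have h1 : w ≠ 1 := by
    intro h
    exact toCircle_ne (c := 1) (by decide) (Circle.ext (by rw [← hw, h]; rfl))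
  have h2 : (w - 1) * (w ^ 2 + w + 1) = 0 := by linear_combination h3
  rcases mul_eq_zero.1 h2 with h | h
  · exact absurd (sub_eq_zero.1 h) h1
  · exact h

lemma cube_root {z : Circle} (h : z ^ 3 = 1) : ∃ c : ZMod 3, z = ZMod.toCircle c := by
  set w : ℂ := ((ZMod.toCircle (1 : ZMod 3) : Circle) : ℂ) with hw
  have hz3 : (z : ℂ) ^ 3 = 1 := by rw [← Circle.coe_pow, h]; rfl
  have hw2 := om_sq
  rw [← hw] at hw2
  have h1 : ((z : ℂ) - 1) * (((z : ℂ) - w) * ((z : ℂ) - w ^ 2)) = 0 := by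
    linear_combination hz3 + (-(z : ℂ) ^ 2 + (z : ℂ) + ((z : ℂ) - 1) * (w - 1)
      ) * hw2
  rcases mul_eq_zero.1 h1 with h1 | h1
  · refine ⟨0, Circle.ext ?_⟩
    rw [sub_eq_zero.1 h1]; simp
  rcases mul_eq_zero.1 h1 with h1 | h1
  · exact ⟨1, Circle.ext (sub_eq_zero.1 h1)⟩
  · refine ⟨2, Circle.ext ?_⟩
    rw [sub_eq_zero.1 h1, hw, ← Circle.coe_pow, ← AddChar.map_nsmul_eq_pow]
    rfl

lemma near_one {z : Circle} (h : z ^ 3 = 1) (h1 : ‖(z : ℂ) - 1‖ < 1) : z = 1 := by
  by_contra hne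
  have hz3 : (z : ℂ) ^ 3 = 1 := by rw [← Circle.coe_pow, h]; rfl
  have hz1 : (z : ℂ) - 1 ≠ 0 := by
    intro h'
    exact hne (Circle.ext (by rw [sub_eq_zero.1 h']; rfl))
  have h2 : (z : ℂ) ^ 2 + (z : ℂ) + 1 = 0 := by
    have : ((z : ℂ) - 1) * ((z : ℂ) ^ 2 + (z : ℂ) + 1) = 0 := by linear_combination hz3
    exact (mul_eq_zero.1 this).resolve_left hz1
  have h4 : ((z : ℂ) - 1) ^ 2 = -3 * (z : ℂ) := by linear_combination h2
  have h5 : ‖(z : ℂ) - 1‖ ^ 2 = 3 := by
    rw [← norm_pow, h4, norm_mul, Circle.norm_coe]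
    simp
  nlinarith [norm_nonneg ((z : ℂ) - 1)]

/-- characters agreeing with `y` on the level `n` subgroup -/
def An (n : ℤ) (y : PontryaginDual M) : Set (PontryaginDual M) := {ξ | ∀ v ∈ cs n 1, ξ v = y v}

lemma An_isOpen_one (n : ℤ) : IsOpen (An n 1) := by
  have : An n 1 = {ξ : PontryaginDual M | MapsTo ξ (cs n 1) {z : Circle | ‖(z : ℂ) - 1‖ < 1}} := by
    ext ξ
    simp only [An, mem_ofPred_eq, PontryaginDual.one_apply]
    constructor
    · intro h v hv
      rw [h v hv]
      simp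
    · intro h v hv
      exact near_one (char_cube ξ v) (h hv)
  rw [this]
  refine isOpen_induced (ContinuousMap.isOpen_setOfPred_mapsTo (cs_isCompact n 1) ?_)
  exact isOpen_lt (by fun_prop) continuous_const

lemma mem_An_mul {n : ℤ} {y ξ : PontryaginDual M} : ξ ∈ An n y ↔ ξ * y⁻¹ ∈ An n 1 := by
  simp only [An, mem_ofPred_eq, PontryaginDual.one_apply]
  refine forall₂_congr fun v _ => ?_
  show ξ v = y v ↔ ξ v * (y v)⁻¹ = 1
  rw [mul_inv_eq_one]

lemma An_eq (n : ℤ) (y : PontryaginDual M) : An n y = (fun ξ => ξ * y⁻¹) ⁻¹' An n 1 := by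
  ext ξ; exact mem_An_mul

lemma An_isOpen (n : ℤ) (y : PontryaginDual M) : IsOpen (An n y) := by
  rw [An_eq]
  exact (An_isOpen_one n).preimage (continuous_mul_const _)

lemma An_meas (n : ℤ) (y : PontryaginDual M) : MeasurableSet (An n y) := (An_isOpen n y).measurableSet

lemma An_disj {n : ℤ} {y y' : PontryaginDual M} (h : ∃ v ∈ cs n 1, y v ≠ y' v) :
    Disjoint (An n y) (An n y') := by
  obtain ⟨v, hv, hne⟩ := h
  rw [Set.disjoint_left]
  intro ξ h1 h2
  exact hne ((h1 v hv).symm.trans (h2 v hv))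

lemma compact_sub {K : Set M} (hK : IsCompact K) : ∃ n : ℕ, K ⊆ cs n 1 := by
  obtain ⟨n, hn⟩ := hK.elim_directed_cover (fun n : ℕ => cs (n : ℤ) 1) (fun n => cs_isOpen _ _)
    (fun x _ => by
      obtain ⟨n, hn⟩ := U_union (Multiplicative.toAdd x)
      rw [mem_iUnion]
      refine ⟨n.toNat, fun i hi => hn i ?_⟩
      have := Int.self_le_toNat n
      omega)
    (directed_of_isDirected_le fun a b hab => cs_mono (by exact_mod_cast hab) 1)
  exact ⟨n, hn⟩

lemma An_basis {C : Set (PontryaginDual M)} (hC : C ∈ 𝓝 (1 : PontryaginDual M)) :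
    ∃ n : ℕ, An n 1 ⊆ C := by
  by_contra hcon
  push Not at hcon
  have : ∀ n : ℕ, ∃ ξ : PontryaginDual M, ξ ∈ An n 1 ∧ ξ ∉ C := by
    intro n
    exact Set.not_subset.1 (hcon n)
  choose ξ h1 h2 using this
  have ht : Tendsto ξ atTop (𝓝 1) := by
    have hind : IsInducing (ContinuousMonoidHom.toContinuousMap : (M →ₜ* Circle) → C(M, Circle)) :=
      ContinuousMonoidHom.isInducing_toContinuousMap M Circle
    have : Tendsto (fun n => (show M →ₜ* Circle from ξ n)) atTop (𝓝 (1 : M →ₜ* Circle)) := by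
      rw [hind.tendsto_nhds_iff, ContinuousMap.tendsto_nhds_compactOpen]
      intro K hK U hU hm
      obtain ⟨N, hN⟩ := compact_sub hK
      filter_upwards [eventually_ge_atTop N] with n hn x hx
      have hx' : x ∈ cs (n : ℤ) 1 := cs_mono (by exact_mod_cast hn) 1 (hN hx)
      have h3 : ξ n x = 1 := h1 n x hx'
      show ξ n x ∈ U
      rw [h3]
      exact hm hx
    exact this
  obtain ⟨n, hn⟩ := (ht.eventually hC).exists
  exact h2 n hn

section meas
variable (ν : Measure (PontryaginDual M)) [ν.IsHaarMeasure]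

lemma An_measure (n : ℤ) (y : PontryaginDual M) : ν (An n y) = ν (An n 1) := by
  rw [An_eq]
  exact measure_preimage_mul_right ν y⁻¹ _

lemma An_pos (n : ℤ) (y : PontryaginDual M) : 0 < ν (An n y) :=
  (An_isOpen n y).measure_pos ν ⟨y, fun _ _ => rfl⟩

lemma An_split (n : ℤ) : An n 1 = ⋃ c : ZMod 3, An (n + 1) (ch (Finsupp.single n c)) := by
  ext ξ
  simp only [mem_iUnion]
  constructor
  · intro h
    obtain ⟨c, hc⟩ := cube_root (char_cube ξ (em n))
    refine ⟨c, fun v hv => ?_⟩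
    -- `v = (v * e^{-k}) * e^k`
    obtain ⟨k, hk⟩ : ∃ k : ℕ, (k : ZMod 3) = cm v n := ⟨(cm v n).val, by simp⟩
    have hw : v * ((em n) ^ k)⁻¹ ∈ cs n 1 := by
      intro i hi
      have hpow : ∀ (k : ℕ) (i : ℤ), cm ((em n) ^ k) i = k * (if i = n then 1 else 0) := by
        intro k i
        induction k with
        | zero => simp
        | succ k ih => rw [pow_succ, cm_mul, ih, cm_em]; push_cast; ring
      rw [cm_mul, cm_inv, hpow, cm_one]
      rcases hi.eq_or_lt with rfl | hi
      · simp [hk]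
      · have := hv i (by omega)
        rw [this, if_neg (by omega)]
        simp
    have h1 : ∀ χ : PontryaginDual M, χ v = χ (v * ((em n) ^ k)⁻¹) * (χ (em n)) ^ k := by
      intro χ
      rw [← map_pow, ← map_mul, inv_mul_cancel_right]
    rw [h1, h1 (ch _), h _ hw, hc, PontryaginDual.one_apply, E_triv (Finsupp.single n c) n ?_ hw,
      ch_em]
    · simp
    · intro j hj
      rw [Finsupp.single_apply, if_neg (by omega)]
  · rintro ⟨c, hc⟩ v hv
    rw [hc v (cs_mono (by omega) 1 hv), E_triv (Finsupp.single n c) n ?_ hv,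
      PontryaginDual.one_apply]
    intro j hj
    rw [Finsupp.single_apply, if_neg (by omega)]

lemma An_step (n : ℤ) : ν (An n 1) = 3 * ν (An (n + 1) 1) := by
  rw [An_split, measure_iUnion ?_ (fun c => An_meas _ _), tsum_fintype]
  · simp only [An_measure ν (n + 1)]
    simp [ZMod.card]
  · intro c c' hcc
    apply An_disj
    refine ⟨em n, fun i hi => ?_, ?_⟩
    · rw [cm_em, if_neg (by omega)]; rfl
    · rw [ch_em, ch_em, Finsupp.single_eq_same, Finsupp.single_eq_same]
      exact fun h => hcc (ZMod.injective_toCircle h)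

lemma An_pow (n : ℤ) (k : ℕ) : ν (An n 1) = 3 ^ k * ν (An (n + k) 1) := by
  induction k with
  | zero => simp
  | succ k ih =>
    rw [ih, An_step]
    push_cast
    rw [← add_assoc, pow_succ, mul_assoc]

lemma An_finite (n : ℤ) (y : PontryaginDual M) : ν (An n y) < ∞ := by
  rw [An_measure]
  obtain ⟨C, hCc, hC⟩ := exists_compact_mem_nhds (1 : PontryaginDual M)
  obtain ⟨m, hm⟩ := An_basis hC
  have h1 : ν (An m 1) < ∞ := (measure_mono hm).trans_lt hCc.measure_lt_top
  rcases le_total n m with h | h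
  · obtain ⟨k, hk⟩ := Int.eq_ofNat_of_zero_le (sub_nonneg.2 h)
    rw [An_pow ν n k, show n + (k : ℤ) = m by
      have : ((k : ℕ) : ℤ) = Int.ofNat k := rfl
      omega]
    exact ENNReal.mul_lt_top (by simp) h1
  · refine (measure_mono ?_).trans_lt h1
    intro ξ hξ v hv
    exact hξ v (cs_mono h 1 hv)

/-- A union of six level `6` cosets of level `0` characters does not tile. -/
lemma no_tile (p : Fin 6 → PontryaginDual M) (hp0 : ∀ i, p i ∈ An 0 1)
    (hp : ∀ i j, i ≠ j → ∃ v ∈ cs 6 1, p i v ≠ p j v) :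
    (ν (⋃ i, An 6 (p i)) = 6 * ν (An 6 1)) ∧
    ∀ T : Set (PontryaginDual M), T.Countable →
      ¬ ∀ᵐ ξ ∂ν, ∑' t : T, (⋃ i, An 6 (p i)).indicator (fun _ => (1 : ℝ≥0∞)) (ξ * (t : PontryaginDual M)⁻¹) = 1 := by
  have hO : ν (⋃ i, An 6 (p i)) = 6 * ν (An 6 1) := by
    rw [measure_iUnion (fun i j hij => An_disj (hp i j hij)) (fun c => An_meas _ _), tsum_fintype]
    simp only [An_measure ν 6]
    simp
  refine ⟨hO, fun T hT hae => ?_⟩
  set O := ⋃ i, An 6 (p i) with hOdef
  have hOm : MeasurableSet O := MeasurableSet.iUnion fun i => An_meas _ _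
  have hOW : O ⊆ An 0 1 := by
    intro ξ hξ
    rw [hOdef, mem_iUnion] at hξ
    obtain ⟨i, hi⟩ := hξ
    intro v hv
    rw [hi v (cs_mono (by norm_num) 1 hv)]
    exact hp0 i v hv
  have hC : Countable T := hT
  set W := An 0 1 with hW
  have hWm : MeasurableSet W := An_meas _ _
  have h1 : ∫⁻ ξ in W, ∑' t : T, O.indicator (fun _ => (1 : ℝ≥0∞)) (ξ * (t : PontryaginDual M)⁻¹) ∂ν
      = ν W := by
    rw [lintegral_congr_ae (g := fun _ => 1) (ae_restrict_of_ae hae), setLIntegral_one]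
  have hmf : ∀ t : T, Measurable fun ξ : PontryaginDual M =>
      O.indicator (fun _ => (1 : ℝ≥0∞)) (ξ * (t : PontryaginDual M)⁻¹) := fun t =>
    (measurable_const.indicator hOm).comp (continuous_mul_const _).measurable
  rw [lintegral_tsum (fun t => (hmf t).aemeasurable)] at h1
  have h2 : ∀ t : T, ∫⁻ ξ in W, O.indicator (fun _ => (1 : ℝ≥0∞)) (ξ * (t : PontryaginDual M)⁻¹) ∂ν
      = ({t : T | (t : PontryaginDual M) ∈ W}).indicator (fun _ => 6 * ν (An 6 1)) t := by
    intro t
    have hWmul : ∀ a b : PontryaginDual M, a ∈ W → (a * b ∈ W ↔ b ∈ W) := by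
      intro a b ha
      constructor
      · intro h v hv
        have h3 : a v * b v = 1 := h v hv
        rw [ha v hv, PontryaginDual.one_apply, one_mul] at h3
        exact h3
      · intro h v hv
        show a v * b v = 1
        rw [ha v hv, h v hv]
        simp
    by_cases ht : (t : PontryaginDual M) ∈ W
    · rw [indicator_of_mem (show t ∈ {t : T | (t : PontryaginDual M) ∈ W} from ht), ← hO]
      have h3 : ∫⁻ ξ in W, O.indicator (fun _ => (1 : ℝ≥0∞)) (ξ * (t : PontryaginDual M)⁻¹) ∂ν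
          = ∫⁻ ξ, O.indicator (fun _ => (1 : ℝ≥0∞)) (ξ * (t : PontryaginDual M)⁻¹) ∂ν := by
        rw [← lintegral_indicator hWm]
        apply lintegral_congr
        intro ξ
        by_cases hξ : ξ ∈ W
        · rw [indicator_of_mem hξ]
        · rw [indicator_of_notMem hξ, indicator_of_notMem]
          intro h4
          have h5 := hOW h4
          apply hξ
          have h6 := (hWmul _ (ξ * (t : PontryaginDual M)⁻¹) ht).2 h5
          rwa [mul_comm, inv_mul_cancel_right] at h6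
      rw [h3, lintegral_mul_right_eq_self (fun ξ => O.indicator (fun _ => (1 : ℝ≥0∞)) ξ),
        lintegral_indicator hOm, setLIntegral_one]
    · rw [indicator_of_notMem (show t ∉ {t : T | (t : PontryaginDual M) ∈ W} from ht)]
      rw [← lintegral_indicator hWm]
      apply lintegral_eq_zero_of_ae_eq_zero
      refine Eventually.of_forall fun ξ => ?_
      by_cases hξ : ξ ∈ W
      · rw [indicator_of_mem hξ, indicator_of_notMem]
        · rfl
        intro h4
        have h5 := hOW h4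
        have h6 := (hWmul _ _ hξ).1 h5
        apply ht
        intro v hv
        have h7 := h6 v hv
        have h8 : ((t : PontryaginDual M) v)⁻¹ = 1 := h7
        exact inv_eq_one.1 h8
      · rw [indicator_of_notMem hξ]
        rfl
  simp only [h2] at h1
  rw [← tsum_subtype {t : T | (t : PontryaginDual M) ∈ W} (fun _ => 6 * ν (An 6 1)),
    ENNReal.tsum_const, hW, An_pow ν 0 6] at h1
  rw [show (0 : ℤ) + ((6 : ℕ) : ℤ) = 6 by norm_num] at h1
  set h := ν (An 6 1) with hh
  have hpos : h ≠ 0 := (An_pos ν 6 1).ne'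
  have hfin : h ≠ ⊤ := (An_finite ν 6 1).ne
  rw [← mul_assoc, ENNReal.mul_left_inj hpos hfin] at h1
  -- `6 N = 729`
  generalize hN : ENat.card ↑{t : T | (t : PontryaginDual M) ∈ W} = N at h1
  cases N using ENat.recTopCoe with
  | top =>
    simp at h1
    exact absurd h1.symm (by norm_num)
  | coe N =>
    have h9 : ((N * 6 : ℕ) : ℝ≥0∞) = ((3 ^ 6 : ℕ) : ℝ≥0∞) := by
      have h11 := h1
      simp at h11
      push_cast
      rw [h11]
      norm_num
    have h10 : N * 6 = 3 ^ 6 := by exact_mod_cast h9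
    omega

end meas

end Pool.Agent.Q83.Wset
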