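import Mathlib

open MeasureTheory Topology Set

namespace Pool.Agent.Q83.Wset

/-- finitely supported sequences, with the discrete topology -/
def DD : Type := ℕ →₀ ZMod 3

noncomputable instance : AddCommGroup DD := inferInstanceAs (AddCommGroup (ℕ →₀ ZMod 3))
instance : Countable DD := inferInstanceAs (Countable (ℕ →₀ ZMod 3))
instance : TopologicalSpace DD := ⊥
instance : DiscreteTopology DD := ⟨rfl⟩

/-- the underlying function -/
def DD.f (d : DD) : ℕ → ZMod 3 := Finsupp.toFun (show ℕ →₀ ZMod 3 from d)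

lemma DD.ext' {d d' : DD} (h : ∀ n, d.f n = d'.f n) : d = d' := Finsupp.ext h

@[simp] lemma DD.f_zero (n : ℕ) : DD.f 0 n = 0 := rfl

/-- two-sided sequences over `F_3` vanishing far to the right, as a subgroup -/
def Gs : AddSubgroup (ℤ → ZMod 3) where
  carrier := {x | ∃ N : ℕ, ∀ i : ℤ, (N : ℤ) ≤ i → x i = 0}
  zero_mem' := ⟨0, fun _ _ => rfl⟩
  add_mem' := by
    rintro x y ⟨N, hN⟩ ⟨M, hM⟩
    refine ⟨max N M, fun i hi => ?_⟩
    have h1 : (N : ℤ) ≤ i := le_trans (by exact_mod_cast le_max_left N M) hi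
    have h2 : (M : ℤ) ≤ i := le_trans (by exact_mod_cast le_max_right N M) hi
    simp [hN i h1, hM i h2]
  neg_mem' := by
    rintro x ⟨N, hN⟩
    exact ⟨N, fun i hi => by simp [hN i hi]⟩

/-- The additive group of Laurent series over `F_3`. -/
def G0 : Type := Gs

noncomputable instance : AddCommGroup G0 := inferInstanceAs (AddCommGroup Gs)

/-- coordinates -/
def co (x : G0) : ℤ → ZMod 3 := x.1

lemma co_ext {x y : G0} (h : ∀ i, co x i = co y i) : x = y := Subtype.ext (funext h)

@[simp] lemma co_zero (i : ℤ) : co 0 i = 0 := rfl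
@[simp] lemma co_add (x y : G0) (i : ℤ) : co (x + y) i = co x i + co y i := rfl
@[simp] lemma co_neg (x : G0) (i : ℤ) : co (-x) i = - co x i := rfl
@[simp] lemma co_sub (x y : G0) (i : ℤ) : co (x - y) i = co x i - co y i := by
  rw [sub_eq_add_neg, co_add, co_neg, sub_eq_add_neg]

lemma pos_fin (x : G0) : (Function.support fun n : ℕ => co x n).Finite := by
  obtain ⟨N, hN⟩ := x.2
  refine (Set.finite_lt_nat N).subset ?_
  intro n hn
  by_contra h
  exact hn (hN n (by simpa using h))

/-- the part with nonnegative indices -/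
noncomputable def pos (x : G0) : DD := Finsupp.ofSupportFinite (fun n : ℕ => co x n) (pos_fin x)

lemma pos_apply (x : G0) (n : ℕ) : (pos x).f n = co x n := rfl

lemma pos_add (x y : G0) : pos (x + y) = pos x + pos y := by
  apply DD.ext'
  intro n
  rfl

noncomputable def Psi : G0 →+ DD × (ℤ → ZMod 3) where
  toFun x := (pos x, co x)
  map_zero' := by
    ext1
    · apply DD.ext'
      intro n
      rfl
    · rfl
  map_add' x y := by
    ext1
    · exact pos_add x y
    · rfl

noncomputable instance : TopologicalSpace G0 := TopologicalSpace.induced Psi inferInstance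

lemma ind : IsInducing (Psi : G0 → DD × (ℤ → ZMod 3)) := ⟨rfl⟩

lemma inj : Function.Injective (Psi : G0 → DD × (ℤ → ZMod 3)) := by
  intro x y h
  exact Subtype.ext (congrArg Prod.snd h)

lemma emb : IsEmbedding (Psi : G0 → DD × (ℤ → ZMod 3)) := ⟨ind, inj⟩

instance : IsTopologicalAddGroup G0 := ind.topologicalAddGroup Psi

instance : T2Space G0 := emb.t2Space

instance : SecondCountableTopology G0 := emb.secondCountableTopology

lemma cont_co (i : ℤ) : Continuous fun x : G0 => co x i :=
  (continuous_apply i).comp (continuous_snd.comp ind.continuous)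

lemma cont_pos : Continuous (pos : G0 → DD) := continuous_fst.comp ind.continuous

lemma continuous_iff {X : Type*} [TopologicalSpace X] {f : X → G0} :
    Continuous f ↔ Continuous (fun x => pos (f x)) ∧ ∀ i, Continuous fun x => co (f x) i := by
  constructor
  · intro h
    exact ⟨cont_pos.comp h, fun i => (cont_co i).comp h⟩
  · rintro ⟨h1, h2⟩
    rw [ind.continuous_iff]
    exact h1.prodMk (continuous_pi h2)

/-- the subgroups `U n`: the coordinates from `n` on vanish -/
def U (n : ℤ) : AddSubgroup G0 where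
  carrier := {x | ∀ i, n ≤ i → co x i = 0}
  zero_mem' := fun _ _ => rfl
  add_mem' := by
    intro x y hx hy i hi
    simp [hx i hi, hy i hi]
  neg_mem' := by
    intro x hx i hi
    simp [hx i hi]

lemma mem_U {n : ℤ} {x : G0} : x ∈ U n ↔ ∀ i, n ≤ i → co x i = 0 := Iff.rfl

lemma U_mono {m n : ℤ} (h : m ≤ n) : U m ≤ U n := fun _ hx i hi => hx i (h.trans hi)

/-- the unit vector -/
noncomputable def e (n : ℤ) : G0 := ⟨Pi.single n 1, by
  refine ⟨(n + 1).toNat, fun i hi => ?_⟩
  have : i ≠ n := by
    intro h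
    have := Int.self_le_toNat (n + 1)
    omega
  simp [this]⟩

lemma co_e (n i : ℤ) : co (e n) i = if i = n then 1 else 0 := by
  show (Pi.single n (1 : ZMod 3) : ℤ → ZMod 3) i = _
  rw [Pi.single_apply]

lemma U_zero_isOpen : IsOpen (U 0 : Set G0) := by
  have : (U 0 : Set G0) = pos ⁻¹' {0} := by
    ext x
    simp only [SetLike.mem_coe, mem_U, mem_preimage, mem_singleton_iff]
    constructor
    · intro h
      apply DD.ext'
      intro n
      exact h n (by positivity)
    · intro h i hi
      obtain ⟨n, rfl⟩ := Int.eq_ofNat_of_zero_le hi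
      have := pos_apply x n
      rw [h] at this
      exact this.symm
  rw [this]
  exact (isOpen_discrete _).preimage cont_pos

lemma co_smul (k : ℤ) (x : G0) (i : ℤ) : co (k • x) i = k • co x i := rfl

lemma ker_isOpen (i : ℤ) : IsOpen {x : G0 | co x i = 0} :=
  (isOpen_discrete {(0 : ZMod 3)}).preimage (cont_co i)

lemma U_isOpen (n : ℤ) : IsOpen (U n : Set G0) := by
  rcases le_total 0 n with h | h
  · exact AddSubgroup.isOpen_mono (U_mono h) U_zero_isOpen
  · -- finitely many additional conditions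
    have : (U n : Set G0) = (U 0 : Set G0) ∩ ⋂ i ∈ Finset.Ico n 0, {x : G0 | co x i = 0} := by
      ext x
      simp only [SetLike.mem_coe, mem_U, mem_inter_iff, mem_iInter, mem_ofPred_eq, Finset.mem_Ico]
      constructor
      · intro hx
        exact ⟨fun i hi => hx i (h.trans hi), fun i hi => hx i hi.1⟩
      · rintro ⟨h1, h2⟩ i hi
        rcases le_or_gt 0 i with h3 | h3
        · exact h1 i h3
        · exact h2 i ⟨hi, h3⟩
    rw [this]
    exact U_zero_isOpen.inter (isOpen_biInter_finset fun i _ => ker_isOpen i)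

lemma U_isCompact (n : ℤ) : IsCompact (U n : Set G0) := by
  rw [ind.isCompact_iff]
  have hc : IsCompact ({d : DD | ∀ k : ℕ, n ≤ k → d.f k = 0} ×ˢ
      (univ : Set (ℤ → ZMod 3))) := by
    refine IsCompact.prod ?_ isCompact_univ
    apply Set.Finite.isCompact
    have : Set.Finite {f : ℕ →₀ ZMod 3 | ∀ k : ℕ, n ≤ k → f k = 0} := by
      have : {f : ℕ →₀ ZMod 3 | ∀ k : ℕ, n ≤ k → f k = 0}
          ⊆ (((Finset.range n.toNat).finsupp fun _ => Finset.univ : Finset (ℕ →₀ ZMod 3)) :
            Set (ℕ →₀ ZMod 3)) := by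
        intro f hf
        simp only [Finset.mem_coe, Finset.mem_finsupp_iff, Finset.mem_univ, implies_true, and_true]
        intro k hk
        by_contra h
        simp only [Finset.mem_range, not_lt] at h
        have := hf k (by omega)
        simp [this] at hk
      exact Set.Finite.subset (Finset.finite_toSet _) this
    exact this
  refine hc.of_isClosed_subset ?_ ?_
  · have : Psi '' (U n : Set G0) = {q : DD × (ℤ → ZMod 3) | (∀ i, n ≤ i → q.2 i = 0) ∧
        ∀ k : ℕ, q.1.f k = q.2 k} := by
      ext q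
      constructor
      · rintro ⟨x, hx, rfl⟩
        exact ⟨hx, fun k => rfl⟩
      · rintro ⟨h1, h2⟩
        refine ⟨⟨q.2, n.toNat, fun i hi => h1 i (by have := Int.self_le_toNat n; omega)⟩, ?_, ?_⟩
        · exact h1
        · refine Prod.ext ?_ rfl
          apply DD.ext'
          intro k
          exact (h2 k).symm
    rw [this]
    simp only [ofPred_and, ofPred_forall]
    refine IsClosed.inter ?_ ?_
    · exact isClosed_iInter fun i => isClosed_iInter fun _ =>
        isClosed_eq ((continuous_apply i).comp continuous_snd) continuous_const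
    · refine isClosed_iInter fun k => isClosed_eq ?_ ((continuous_apply _).comp continuous_snd)
      exact (continuous_of_discreteTopology (f := fun d : DD => d.f k)).comp
        continuous_fst
  · rintro _ ⟨x, hx, rfl⟩
    exact ⟨fun k hk => hx k hk, mem_univ _⟩

instance : LocallyCompactSpace G0 :=
  (U_isCompact 0).locallyCompactSpace_of_mem_nhds_of_addGroup (x := 0)
    (U_zero_isOpen.mem_nhds (U 0).zero_mem)

/-- the `U n` form a basis of neighbourhoods of `0` -/
lemma U_basis {V : Set G0} (hV : V ∈ 𝓝 (0 : G0)) : ∃ n : ℤ, (U n : Set G0) ⊆ V := by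
  rw [ind.nhds_eq_comap, Filter.mem_comap] at hV
  obtain ⟨W, hW, hWV⟩ := hV
  rw [map_zero, show (0 : DD × (ℤ → ZMod 3)) = (0, 0) from rfl, nhds_prod_eq,
    Filter.mem_prod_iff] at hW
  obtain ⟨A, hA, B, hB, hAB⟩ := hW
  rw [nhds_pi, Filter.mem_pi] at hB
  obtain ⟨I, hI, t, ht, htB⟩ := hB
  obtain ⟨m, hm⟩ : ∃ m : ℤ, ∀ i ∈ I, m ≤ i := by
    obtain ⟨m, hm⟩ := hI.bddBelow
    exact ⟨m, hm⟩
  refine ⟨min m 0, fun x hx => hWV (hAB ⟨?_, htB ?_⟩)⟩
  · have : pos x = 0 := by
      apply DD.ext'
      intro k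
      exact hx k (by omega)
    show pos x ∈ A
    rw [this]
    exact mem_of_mem_nhds hA
  · intro i hi
    show co x i ∈ t i
    rw [hx i ((min_le_left _ _).trans (hm i hi))]
    exact mem_of_mem_nhds (ht i)

lemma U_union (x : G0) : ∃ n : ℤ, x ∈ U n := by
  obtain ⟨N, hN⟩ := x.2
  exact ⟨N, hN⟩

lemma U_inter {x : G0} (h : ∀ n : ℤ, x ∈ U n) : x = 0 := co_ext fun i => h i i le_rfl

end Pool.Agent.Q83.Wset
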