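import Pool.Agent.Q83.Wset.Aut

open MeasureTheory Topology Set Filter
open scoped ComplexConjugate ENNReal

namespace Pool.Agent.Q83.Wset

/-- the special permutation: `-1 ↦ 6` -/
def pi0 : ℤ ≃ ℤ where
  toFun j := if 6 ≤ j then j + 1 else if 0 ≤ j then j else if j = -1 then 6 else j + 1
  invFun i := if 7 ≤ i then i - 1 else if i = 6 then -1 else if 0 ≤ i then i else i - 1
  left_inv j := by
    simp only
    split_ifs <;> omega
  right_inv i := by
    simp only
    split_ifs <;> omega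

lemma pi0_apply (j : ℤ) :
    pi0 j = if 6 ≤ j then j + 1 else if 0 ≤ j then j else if j = -1 then 6 else j + 1 := rfl

/-- the permutations -/
def pk (k : ℤ) : ℤ ≃ ℤ := if k = 0 then pi0 else Equiv.addRight k

/-- a bound for the displacement -/
def ck (k : ℤ) : ℕ := if k = 0 then 7 else k.natAbs

lemma pk_bound (k : ℤ) : ∀ j, |pk k j - j| ≤ ck k := by
  intro j
  unfold pk ck
  split_ifs with h
  · rw [pi0_apply, abs_le]
    push_cast
    split_ifs <;> omega
  · simp

/-- the level of the tile `k` -/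
def nn (k : ℤ) : ℤ := if k = 0 then 7 else k + 6

lemma pk_zero (k : ℤ) : pk k 0 = k := by
  unfold pk
  split_ifs with h
  · rw [pi0_apply, h]; norm_num
  · simp

lemma pk_one (k : ℤ) : pk k 1 = k + 1 := by
  unfold pk
  split_ifs with h
  · rw [pi0_apply, h]; norm_num
  · simp [add_comm]

lemma pk_ge (k j : ℤ) : 6 ≤ j ↔ nn k ≤ pk k j := by
  unfold pk nn
  split_ifs with h
  · rw [pi0_apply]
    split_ifs <;> omega
  · simp only [Equiv.coe_addRight]; omega

lemma pk_lt (k j : ℤ) (h : k ≤ pk k j) (h' : pk k j < nn k) : (0 ≤ j ∧ j ≤ 5) ∨ (j = -1 ∧ k = 0) := by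
  unfold pk nn at *
  split_ifs at * with h0
  · rw [pi0_apply] at h h'
    split_ifs at h h' <;> omega
  · simp only [Equiv.coe_addRight] at h h'; omega

lemma nn_gt (k : ℤ) : k + 6 ≤ nn k := by unfold nn; split_ifs <;> omega

/-- the coefficient table -/
def P : Fin 6 → Fin 6 → ZMod 3 :=
  ![![1,0,0,0,0,0], ![1,1,1,0,0,0], ![1,2,0,1,0,0], ![2,0,0,0,1,0], ![2,1,0,0,0,1],
    ![2,2,0,0,0,0]]

/-- the Hadamard exponents -/
def Mt : Fin 6 → Fin 6 → ZMod 3 :=
  ![![0,0,0,0,0,0], ![0,0,1,2,2,1], ![0,1,0,1,2,2], ![0,2,1,0,1,2], ![0,2,2,1,0,1],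
    ![0,1,2,2,1,0]]

/-- the translations -/
def D : Fin 6 → Fin 6 → ZMod 3 :=
  ![![0,0,0,0,0,0], ![0,2,1,0,2,0], ![0,1,0,1,1,1], ![0,1,1,2,0,0], ![0,2,0,1,1,1],
    ![0,0,1,2,2,1]]

lemma PD (i j : Fin 6) : ∑ l, P i l * D j l = Mt i j := by
  revert i j; decide

lemma had_col (j j' : Fin 6) (h : j ≠ j') (c : ZMod 3) :
    (Finset.univ.filter fun i => Mt i j - Mt i j' = c).card = 2 := by
  revert j j' c; decide

lemma had_row (i i' : Fin 6) (h : i ≠ i') (c : ZMod 3) :
    (Finset.univ.filter fun j => Mt i j - Mt i' j = c).card = 2 := by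
  revert i i' c; decide

lemma P_first (i : Fin 6) : P i 0 ≠ 0 := by revert i; decide

lemma P_pick (a c : ZMod 3) (h : a ≠ 0) : ∃ i, P i 0 = a ∧ P i 1 = c := by
  revert a c; decide

lemma P_inj (i i' : Fin 6) (h0 : P i 0 = P i' 0) (h1 : P i 1 = P i' 1) : i = i' := by
  revert i i'; decide

/-- extension of a row by zero -/
def ext0 (f : Fin 6 → ZMod 3) (j : ℤ) : ZMod 3 :=
  if h : 0 ≤ j ∧ j ≤ 5 then f ⟨j.toNat, by omega⟩ else 0

lemma ext0_out (f : Fin 6 → ZMod 3) (j : ℤ) (h : ¬ (0 ≤ j ∧ j ≤ 5)) : ext0 f j = 0 := by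
  unfold ext0; rw [dif_neg h]

lemma ext0_in (f : Fin 6 → ZMod 3) (l : Fin 6) : ext0 f (l : ℕ) = f l := by
  unfold ext0
  rw [dif_pos ⟨by positivity, by have := l.2; omega⟩]
  rfl

/-- the six basic characters (as finitely supported sequences) -/
noncomputable def pv (i : Fin 6) : ℤ →₀ ZMod 3 :=
  Finsupp.onFinset (Finset.Icc 0 5) (ext0 (P i)) (fun j hj => by
    by_contra h
    exact hj (ext0_out _ j (by simpa using h)))

lemma pv_apply (i : Fin 6) (j : ℤ) : pv i j = ext0 (P i) j := rfl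

lemma pv_zero (i : Fin 6) : pv i 0 = P i 0 := ext0_in (P i) 0
lemma pv_one (i : Fin 6) : pv i 1 = P i 1 := ext0_in (P i) 1

lemma pr_pv (i : Fin 6) (x : M) : pr (pv i) x = ∑ l : Fin 6, P i l * cm x (l : ℕ) := by
  unfold pr
  rw [Finsupp.sum_of_support_subset (s := Finset.Icc (0 : ℤ) 5) _ ?_ _ (by simp)]
  · have : Finset.Icc (0 : ℤ) 5 = Finset.univ.image (fun l : Fin 6 => ((l : ℕ) : ℤ)) := by decide
    rw [this, Finset.sum_image (fun a _ b _ h => by
      apply Fin.ext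
      exact_mod_cast h)]
    refine Finset.sum_congr rfl fun l _ => ?_
    rw [pv_apply, ext0_in]
  · intro j hj
    rw [Finsupp.mem_support_iff] at hj
    by_contra h
    exact hj (ext0_out _ j (by simpa using h))

/-- the translation elements -/
noncomputable def dv (j : Fin 6) : M := mkM (ext0 (D j)) ⟨6, fun i hi => ext0_out _ i (by omega)⟩

lemma pr_pd (i j : Fin 6) : pr (pv i) (dv j) = Mt i j := by
  rw [pr_pv, ← PD]
  refine Finset.sum_congr rfl fun l _ => ?_
  congr 1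
  show ext0 (D j) _ = _
  rw [ext0_in]

lemma dv_mem (j : Fin 6) : dv j ∈ cs 6 1 := fun i hi => ext0_out _ i (by omega)

lemma dv_zero : dv 0 = 1 := by
  apply cm_ext
  intro i
  show ext0 (D 0) i = 0
  unfold ext0
  split_ifs with h
  · have : ∀ l : Fin 6, D 0 l = 0 := by decide
    exact this _
  · rfl

/-- admissible shears for the tile `k` -/
def Tk (k : ℤ) : Set (ℤ →₀ ZMod 3) :=
  {τ | ∀ j, τ j ≠ 0 → (2 ≤ j ∧ j ≤ 5) ∨ (j = -1 ∧ k = 0)}

lemma Tk_zero {k : ℤ} {τ : ℤ →₀ ZMod 3} (h : τ ∈ Tk k) : τ 0 = 0 := by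
  by_contra h0
  have := h 0 h0
  omega

lemma Tk_one {k : ℤ} {τ : ℤ →₀ ZMod 3} (h : τ ∈ Tk k) : τ 1 = 0 := by
  by_contra h0
  have := h 1 h0
  omega

/-- the automorphism of index `(k, τ)` -/
noncomputable def au (k : ℤ) (τ : Tk k) : M ≃ₜ* M :=
  aut (pk k) (ck k) (pk_bound k) τ (Tk_zero τ.2)

/-- the character of index `(k, τ, i)` -/
noncomputable def yy (k : ℤ) (τ : ℤ →₀ ZMod 3) (i : Fin 6) : ℤ →₀ ZMod 3 :=
  Finsupp.equivMapDomain (pk k) (pv i + pv i 0 • τ)

lemma yy_apply (k : ℤ) (τ : ℤ →₀ ZMod 3) (i : Fin 6) (j : ℤ) :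
    yy k τ i (pk k j) = pv i j + pv i 0 * τ j := by
  unfold yy
  rw [Finsupp.equivMapDomain_apply, Equiv.symm_apply_apply]
  rfl

lemma pr_au (k : ℤ) (τ : Tk k) (i : Fin 6) (x : M) : pr (pv i) (au k τ x) = pr (yy k τ i) x :=
  pr_aut _ _ _ _ _ _ _

lemma au_mem (k : ℤ) (τ : Tk k) (x x' : M) : au k τ x ∈ cs 6 (au k τ x') ↔ x ∈ cs (nn k) x' := by
  have h : ∀ (x : M) (j : ℤ), 6 ≤ j → cm (au k τ x) j = cm x (pk k j) := by
    intro x j hj
    unfold au
    rw [cm_aut, if_neg (by omega), add_zero]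
  constructor
  · intro hx i hi
    obtain ⟨j, rfl⟩ := (pk k).surjective i
    have hj := (pk_ge k j).2 hi
    rw [← h x j hj, ← h x' j hj]
    exact hx j hj
  · intro hx j hj
    rw [h x j hj, h x' j hj]
    exact hx _ ((pk_ge k j).1 hj)

lemma yy_supp (k : ℤ) (τ : Tk k) (i : Fin 6) (j : ℤ) (h : yy k τ i j ≠ 0) : k ≤ j ∧ j < nn k := by
  obtain ⟨l, rfl⟩ := (pk k).surjective j
  rw [yy_apply] at h
  have hl : (0 ≤ l ∧ l ≤ 5) ∨ (l = -1 ∧ k = 0) := by
    by_contra hcon
    apply h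
    rw [pv_apply, ext0_out _ _ (fun h' => hcon (Or.inl h'))]
    have : (τ : ℤ →₀ ZMod 3) l = 0 := by
      by_contra h0
      have := τ.2 l h0
      omega
    rw [this]; ring
  unfold pk nn
  split_ifs with h0
  · rw [pi0_apply]
    split_ifs <;> omega
  · simp only [Equiv.coe_addRight]; omega

lemma yy_lead (k : ℤ) (τ : Tk k) (i : Fin 6) : yy k τ i k = P i 0 := by
  have := yy_apply k τ i 0
  rw [pk_zero, Tk_zero τ.2, mul_zero, add_zero, pv_zero] at this
  exact this

lemma yy_snd (k : ℤ) (τ : Tk k) (i : Fin 6) : yy k τ i (k + 1) = P i 1 := by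
  have := yy_apply k τ i 1
  rw [pk_one, Tk_one τ.2, mul_zero, add_zero, pv_one] at this
  exact this

/-- distinct indices are separated at a common level -/
lemma yy_sep (k k' : ℤ) (τ : Tk k) (τ' : Tk k') (i i' : Fin 6)
    (h : ∀ j < min (nn k) (nn k'), yy k τ i j = yy k' τ' i' j) :
    k = k' ∧ (τ : ℤ →₀ ZMod 3) = τ' ∧ i = i' := by
  have hk : k = k' := by
    by_contra hne
    have g1 := nn_gt k
    have g2 := nn_gt k'
    rcases lt_or_gt_of_ne hne with hlt | hlt
    · have := h k (lt_min (by omega) (by omega))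
      rw [yy_lead] at this
      have h2 : yy k' τ' i' k ≠ 0 := by rw [← this]; exact P_first i
      exact absurd (yy_supp k' τ' i' k h2).1 (by omega)
    · have := h k' (lt_min (by omega) (by omega))
      rw [yy_lead] at this
      have h2 : yy k τ i k' ≠ 0 := by rw [this]; exact P_first i'
      exact absurd (yy_supp k τ i k' h2).1 (by omega)
  subst hk
  rw [min_self] at h
  have g1 := nn_gt k
  have hi : i = i' := by
    apply P_inj
    · have := h k (by omega)
      rwa [yy_lead, yy_lead] at this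
    · have := h (k + 1) (by omega)
      rwa [yy_snd, yy_snd] at this
  subst hi
  refine ⟨rfl, ?_, rfl⟩
  ext j
  have hfield : Fact (Nat.Prime 3) := ⟨by norm_num⟩
  have hall : ∀ l, yy k τ i l = yy k τ' i l := by
    intro l
    rcases lt_or_ge l (nn k) with hl | hl
    · exact h l hl
    · have h1 : yy k τ i l = 0 := by
        by_contra h0
        exact absurd (yy_supp k τ i l h0).2 (by omega)
      have h2 : yy k τ' i l = 0 := by
        by_contra h0
        exact absurd (yy_supp k τ' i l h0).2 (by omega)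
      rw [h1, h2]
  have := hall (pk k j)
  rw [yy_apply, yy_apply, add_right_inj] at this
  have hP : pv i 0 ≠ 0 := by rw [pv_zero]; exact P_first i
  exact mul_left_cancel₀ hP this

/-- every sequence with leading index `k` and length below `nn k` is one of the `yy` -/
lemma yy_surj (k : ℤ) (y : ℤ →₀ ZMod 3) (hy : y k ≠ 0) (hs : ∀ j, y j ≠ 0 → k ≤ j ∧ j < nn k) :
    ∃ (τ : Tk k) (i : Fin 6), yy k τ i = y := by
  have hfield : Fact (Nat.Prime 3) := ⟨by norm_num⟩
  obtain ⟨i, hi0, hi1⟩ := P_pick (y k) (y (k + 1)) hy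
  have hP : pv i 0 ≠ 0 := by rw [pv_zero]; exact P_first i
  -- the shear
  set S : Finset ℤ := if k = 0 then insert (-1) (Finset.Icc 2 5) else Finset.Icc 2 5 with hS
  have hSm : ∀ j, j ∈ S ↔ (2 ≤ j ∧ j ≤ 5) ∨ (j = -1 ∧ k = 0) := by
    intro j
    rw [hS]
    split_ifs with h0
    · simp only [Finset.mem_insert, Finset.mem_Icc, h0, and_true]
      tauto
    · simp only [Finset.mem_Icc, h0, and_false, or_false]
  set τ : ℤ →₀ ZMod 3 := Finsupp.onFinset S
    (fun j => if j ∈ S then (pv i 0)⁻¹ * (y (pk k j) - pv i j) else 0)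
    (fun j hj => by
      by_contra h
      exact hj (if_neg h)) with hτ
  have hτa : ∀ j, τ j = if j ∈ S then (pv i 0)⁻¹ * (y (pk k j) - pv i j) else 0 := fun j => rfl
  have hτT : τ ∈ Tk k := by
    intro j hj
    rw [hτa] at hj
    have : j ∈ S := by
      by_contra h
      exact hj (if_neg h)
    exact (hSm j).1 this
  refine ⟨⟨τ, hτT⟩, i, ?_⟩
  ext l
  obtain ⟨j, rfl⟩ := (pk k).surjective l
  rw [yy_apply]
  show pv i j + pv i 0 * τ j = _
  rw [hτa]
  split_ifs with hj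
  · rw [← mul_assoc, mul_inv_cancel₀ hP, one_mul]; ring
  · rw [mul_zero, add_zero]
    by_cases h0 : j = 0
    · rw [h0, pk_zero, pv_zero, hi0]
    by_cases h1 : j = 1
    · rw [h1, pk_one, pv_one, hi1]
    rw [hSm] at hj
    have hout : ¬ ((0 ≤ j ∧ j ≤ 5) ∨ (j = -1 ∧ k = 0)) := by omega
    rw [pv_apply, ext0_out _ _ (fun h' => hout (Or.inl h'))]
    by_contra h2
    obtain ⟨h3, h4⟩ := hs _ (Ne.symm h2)
    exact hout (pk_lt k j h3 h4)

/-- Hadamard property -/
lemma std_two (f : Fin 6 → ZMod 3) (h : ∀ c, (Finset.univ.filter fun i => f i = c).card = 2) :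
    ∑ i, (ZMod.stdAddChar (f i) : ℂ) = 0 := by
  have h1 : ∑ i, (ZMod.stdAddChar (f i) : ℂ)
      = ∑ c : ZMod 3, ∑ i ∈ Finset.univ.filter (fun i => f i = c), (ZMod.stdAddChar (f i) : ℂ) :=
    (Finset.sum_fiberwise _ _ _).symm
  rw [h1]
  have h2 : ∀ c : ZMod 3, ∑ i ∈ Finset.univ.filter (fun i => f i = c), (ZMod.stdAddChar (f i) : ℂ)
      = 2 * ZMod.stdAddChar (c * 1) := by
    intro c
    rw [Finset.sum_congr rfl (g := fun _ => (ZMod.stdAddChar (c * 1) : ℂ))]
    · rw [Finset.sum_const, h c]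
      simp
    · intro i hi
      rw [(Finset.mem_filter.1 hi).2, mul_one]
  simp only [h2, ← Finset.mul_sum, std_sum]
  simp

lemma had1 (j j' : Fin 6) (h : j ≠ j') :
    ∑ i, E (pv i) (dv j) * conj (E (pv i) (dv j')) = 0 := by
  have : ∀ i, E (pv i) (dv j) * conj (E (pv i) (dv j')) = ZMod.stdAddChar (Mt i j - Mt i j') := by
    intro i
    rw [E_eq, E_eq, std_conj, pr_pd, pr_pd, sub_eq_add_neg, AddChar.map_add_eq_mul]
  simp only [this]
  exact std_two _ (had_col j j' h)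

lemma had2 (i i' : Fin 6) :
    ∑ j, E (pv i) (dv j) * conj (E (pv i') (dv j)) = if i = i' then 6 else 0 := by
  split_ifs with h
  · subst h
    simp only [E_mul_conj]
    simp
  · have : ∀ j, E (pv i) (dv j) * conj (E (pv i') (dv j)) = ZMod.stdAddChar (Mt i j - Mt i' j) := by
      intro j
      rw [E_eq, E_eq, std_conj, pr_pd, pr_pd, sub_eq_add_neg, AddChar.map_add_eq_mul]
    simp only [this]
    exact std_two _ (had_row i i' h)

end Pool.Agent.Q83.Wset
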