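import Pool.Agent.Q83.Wset.Group

open MeasureTheory Topology Set
open scoped ComplexConjugate ENNReal

namespace Pool.Agent.Q83.Wset

/-- the multiplicative copy -/
abbrev M : Type := Multiplicative G0

/-- coordinates -/
def cm (x : M) (i : ℤ) : ZMod 3 := co (Multiplicative.toAdd x) i

lemma cm_ext {x y : M} (h : ∀ i, cm x i = cm y i) : x = y :=
  Multiplicative.toAdd.injective (co_ext h)

@[simp] lemma cm_one (i : ℤ) : cm 1 i = 0 := rfl
@[simp] lemma cm_mul (x y : M) (i : ℤ) : cm (x * y) i = cm x i + cm y i := rfl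
@[simp] lemma cm_inv (x : M) (i : ℤ) : cm x⁻¹ i = - cm x i := rfl

lemma cont_cm (i : ℤ) : Continuous fun x : M => cm x i :=
  (cont_co i).comp continuous_toAdd

/-- the coset of level `n` of `x` -/
def cs (n : ℤ) (x : M) : Set M := {z | ∀ i, n ≤ i → cm z i = cm x i}

lemma mem_cs {n : ℤ} {x z : M} : z ∈ cs n x ↔ ∀ i, n ≤ i → cm z i = cm x i := Iff.rfl

lemma cs_self (n : ℤ) (x : M) : x ∈ cs n x := fun _ _ => rfl

lemma cs_symm {n : ℤ} {x z : M} (h : z ∈ cs n x) : x ∈ cs n z := fun i hi => (h i hi).symm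

lemma cs_trans {n : ℤ} {x y z : M} (h : z ∈ cs n y) (h' : y ∈ cs n x) : z ∈ cs n x :=
  fun i hi => (h i hi).trans (h' i hi)

lemma cs_eq {n : ℤ} {x y : M} (h : x ∈ cs n y) : cs n x = cs n y := by
  ext z
  exact ⟨fun hz => cs_trans hz h, fun hz => cs_trans hz (cs_symm h)⟩

lemma cs_mono {m n : ℤ} (h : m ≤ n) (x : M) : cs m x ⊆ cs n x := fun _ hz i hi =>
  hz i (h.trans hi)

lemma mul_mem_cs {n : ℤ} {x z v : M} : z * v ∈ cs n (x * v) ↔ z ∈ cs n x := by
  simp only [mem_cs, cm_mul, add_left_inj]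

lemma cs_one (n : ℤ) : cs n 1 = Multiplicative.toAdd ⁻¹' (U n : Set G0) := rfl

lemma cs_eq_image (n : ℤ) (x : M) : cs n x = (fun z => z * x) '' cs n 1 := by
  ext z
  constructor
  · intro h
    refine ⟨z * x⁻¹, fun i hi => ?_, by simp⟩
    simp [h i hi]
  · rintro ⟨w, hw, rfl⟩ i hi
    have := hw i hi
    simp at this
    simp [this]

lemma cs_isOpen (n : ℤ) (x : M) : IsOpen (cs n x) := by
  rw [cs_eq_image, cs_one]
  exact (Homeomorph.mulRight x).isOpenMap _ ((U_isOpen n).preimage continuous_toAdd)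

lemma cs_isCompact (n : ℤ) (x : M) : IsCompact (cs n x) := by
  rw [cs_eq_image]
  refine IsCompact.image ?_ (continuous_mul_const x)
  have h : IsCompact (U n : Set G0) := U_isCompact n
  exact h

noncomputable instance : MeasurableSpace M := borel M
instance : BorelSpace M := ⟨rfl⟩

lemma cs_meas (n : ℤ) (x : M) : MeasurableSet (cs n x) := (cs_isOpen n x).measurableSet

instance : LocallyCompactSpace M := inferInstanceAs (LocallyCompactSpace (Multiplicative G0))
instance : SecondCountableTopology M := inferInstanceAs (SecondCountableTopology G0)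
instance : T2Space M := inferInstanceAs (T2Space G0)

/-- the pairing of a finitely supported sequence with a group element -/
def pr (y : ℤ →₀ ZMod 3) (x : M) : ZMod 3 := y.sum fun j c => c * cm x j

lemma pr_mul (y : ℤ →₀ ZMod 3) (x x' : M) : pr y (x * x') = pr y x + pr y x' := by
  simp only [pr, Finsupp.sum, cm_mul, mul_add, Finset.sum_add_distrib]

lemma pr_one (y : ℤ →₀ ZMod 3) : pr y 1 = 0 := by simp [pr]

lemma pr_add (y y' : ℤ →₀ ZMod 3) (x : M) : pr (y + y') x = pr y x + pr y' x := by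
  unfold pr
  rw [Finsupp.sum_add_index']
  · simp
  · intro i a b; ring

lemma pr_single (n : ℤ) (c : ZMod 3) (x : M) : pr (Finsupp.single n c) x = c * cm x n := by
  unfold pr
  rw [Finsupp.sum_single_index (by simp)]

lemma pr_zero (x : M) : pr 0 x = 0 := by simp [pr]

lemma pr_cont (y : ℤ →₀ ZMod 3) : Continuous (pr y) := by
  unfold pr Finsupp.sum
  refine continuous_finsetSum _ fun j _ => ?_
  exact (continuous_of_discreteTopology (f := fun c : ZMod 3 => y j * c)).comp (cont_cm j)

/-- the character attached to `y` -/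
noncomputable def ch (y : ℤ →₀ ZMod 3) : PontryaginDual M :=
  (⟨⟨⟨fun x => ZMod.toCircle (pr y x), by simp [pr_one]⟩,
    fun x x' => by simp [pr_mul, AddChar.map_add_eq_mul]⟩,
    (continuous_of_discreteTopology (f := fun c : ZMod 3 => ZMod.toCircle c)).comp (pr_cont y)⟩ :
      M →ₜ* Circle)

lemma ch_apply (y : ℤ →₀ ZMod 3) (x : M) : ch y x = ZMod.toCircle (pr y x) := rfl

/-- its complex values -/
noncomputable def E (y : ℤ →₀ ZMod 3) (x : M) : ℂ := ((ch y x : Circle) : ℂ)

lemma E_eq (y : ℤ →₀ ZMod 3) (x : M) : E y x = ZMod.stdAddChar (pr y x) := rfl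

lemma E_mul (y : ℤ →₀ ZMod 3) (x x' : M) : E y (x * x') = E y x * E y x' := by
  simp only [E_eq, pr_mul, AddChar.map_add_eq_mul]

lemma E_add (y y' : ℤ →₀ ZMod 3) (x : M) : E (y + y') x = E y x * E y' x := by
  simp only [E_eq, pr_add, AddChar.map_add_eq_mul]

lemma E_norm (y : ℤ →₀ ZMod 3) (x : M) : ‖E y x‖ = 1 := Circle.norm_coe _

lemma E_one (y : ℤ →₀ ZMod 3) : E y 1 = 1 := by simp [E_eq, pr_one]

lemma E_zero (x : M) : E 0 x = 1 := by simp [E_eq, pr_zero]

lemma E_cont (y : ℤ →₀ ZMod 3) : Continuous (E y) :=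
  Continuous.comp (by fun_prop) (map_continuous (ch y))

lemma std_conj (c : ZMod 3) : conj (ZMod.stdAddChar c : ℂ) = ZMod.stdAddChar (-c) := by
  rw [AddChar.map_neg_eq_conj]

lemma std_sum (a : ZMod 3) : ∑ c : ZMod 3, (ZMod.stdAddChar (c * a) : ℂ) = if a = 0 then 3 else 0 := by
  have := AddChar.sum_mulShift a (ZMod.isPrimitive_stdAddChar 3)
  rw [this]
  simp [ZMod.card]

lemma E_mul_conj (y : ℤ →₀ ZMod 3) (x : M) : E y x * conj (E y x) = 1 := by
  rw [Complex.mul_conj, Complex.normSq_eq_norm_sq, E_norm]; simp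

section int
variable (μ : Measure M) [μ.IsHaarMeasure]

lemma cs_finite (n : ℤ) (x : M) : μ (cs n x) < ∞ := (cs_isCompact n x).measure_lt_top

lemma cs_pos (n : ℤ) (x : M) : 0 < μ (cs n x) := (cs_isOpen n x).measure_pos μ ⟨x, cs_self n x⟩

lemma int_shift {F : M → ℂ} (n : ℤ) (x v : M) :
    ∫ z in cs n x, F (z * v) ∂μ = ∫ z in cs n (x * v), F z ∂μ := by
  rw [← integral_indicator (cs_meas n x), ← integral_indicator (cs_meas n (x * v)),
    ← integral_mul_right_eq_self (fun z => (cs n (x * v)).indicator F z) v]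
  congr 1
  funext z
  by_cases h : z ∈ cs n x
  · rw [indicator_of_mem h, indicator_of_mem (mul_mem_cs.2 h)]
  · rw [indicator_of_notMem h, indicator_of_notMem (fun h' => h (mul_mem_cs.1 h'))]

lemma real_cs (n : ℤ) (x : M) : μ.real (cs n x) = μ.real (cs n 1) := by
  have h := int_shift μ (F := fun _ => 1) n 1 x
  rw [one_mul, setIntegral_const, setIntegral_const] at h
  simp only [Complex.real_smul, mul_one] at h
  exact_mod_cast h.symm

lemma char_int (χ : PontryaginDual M) (n : ℤ) (x : M) :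
    (∀ v ∈ cs n 1, χ v = 1) →
      ∫ z in cs n x, ((χ z : Circle) : ℂ) ∂μ = (χ x : Circle) * (μ.real (cs n 1) : ℂ) := by
  intro h
  have : ∀ z ∈ cs n x, ((χ z : Circle) : ℂ) = (χ x : Circle) := by
    intro z hz
    have : z = (z * x⁻¹) * x := by simp
    rw [this, map_mul, h (z * x⁻¹) (fun i hi => by simp [hz i hi]), one_mul]
  rw [setIntegral_congr_fun (cs_meas n x) this, setIntegral_const, real_cs]
  simp [mul_comm]

lemma char_int' (χ : PontryaginDual M) (n : ℤ) (x : M) (h : ∃ v ∈ cs n 1, χ v ≠ 1) :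
    ∫ z in cs n x, ((χ z : Circle) : ℂ) ∂μ = 0 := by
  obtain ⟨v, hv, hv1⟩ := h
  have h1 := int_shift μ (F := fun z => ((χ z : Circle) : ℂ)) n x v
  have h2 : cs n (x * v) = cs n x := cs_eq (fun i hi => by
    have := hv i hi
    simp at this
    simp [this])
  rw [h2] at h1
  simp only [map_mul, Circle.coe_mul] at h1
  rw [integral_mul_const] at h1
  have h3 : (∫ z in cs n x, ((χ z : Circle) : ℂ) ∂μ) * (((χ v : Circle) : ℂ) - 1) = 0 := by
    rw [mul_sub, h1, mul_one, sub_self]
  rcases mul_eq_zero.1 h3 with h | h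
  · exact h
  · exact absurd (Circle.ext (by simpa [sub_eq_zero] using h)) hv1

/-- detecting one coordinate by characters -/
lemma detect {F : M → ℂ} (n : ℤ) (x : M) (y : ℤ →₀ ZMod 3)
    (hF : IntegrableOn F (cs (n + 1) x) μ) :
    ∑ c : ZMod 3, E (Finsupp.single n c) x *
      ∫ z in cs (n + 1) x, F z * conj (E (y + Finsupp.single n c) z) ∂μ
      = 3 * ∫ z in cs n x, F z * conj (E y z) ∂μ := by
  have hmul : ∀ y' : ℤ →₀ ZMod 3, IntegrableOn (fun z => F z * conj (E y' z)) (cs (n + 1) x) μ := by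
    intro y'
    refine Integrable.mul_bdd (c := 1) hF ?_ ?_
    · exact (Complex.continuous_conj.comp (E_cont y')).aestronglyMeasurable
    · exact Filter.Eventually.of_forall fun z => by
        rw [RCLike.norm_conj, E_norm]
  simp only [← integral_const_mul]
  rw [← integral_finsetSum _ (fun c _ => (hmul _).const_mul _)]
  have hset : cs n x = cs (n + 1) x ∩ {z | cm z n = cm x n} := by
    ext z
    simp only [mem_cs, mem_inter_iff, mem_ofPred_eq]
    constructor
    · intro h
      exact ⟨fun i hi => h i (by omega), h n le_rfl⟩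
    · rintro ⟨h1, h2⟩ i hi
      rcases hi.eq_or_lt with rfl | hi
      · exact h2
      · exact h1 i (by omega)
  have hm : MeasurableSet {z : M | cm z n = cm x n} :=
    (isClosed_eq (cont_cm n) continuous_const).measurableSet
  rw [hset, ← setIntegral_indicator hm]
  apply integral_congr_ae
  refine Filter.Eventually.of_forall fun z => ?_
  simp only
  have h1 : ∀ c : ZMod 3, E (Finsupp.single n c) x * (F z * conj (E (y + Finsupp.single n c) z))
      = F z * conj (E y z) * ZMod.stdAddChar (c * (cm x n - cm z n)) := by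
    intro c
    rw [E_add, map_mul, E_eq (Finsupp.single n c), E_eq (Finsupp.single n c), std_conj, pr_single,
      pr_single, mul_sub, sub_eq_add_neg, AddChar.map_add_eq_mul]
    ring
  simp only [h1, ← Finset.mul_sum, std_sum, sub_eq_zero]
  by_cases h : cm z n = cm x n
  · rw [indicator_of_mem (show z ∈ {z : M | cm z n = cm x n} from h), if_pos h.symm]
    ring
  · rw [indicator_of_notMem (show z ∉ {z : M | cm z n = cm x n} from h),
      if_neg (fun h' => h h'.symm), mul_zero]

end int

end Pool.Agent.Q83.Wset
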