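import Pool.Agent.Q83.Wset.Wave

open MeasureTheory Topology Set Filter Measure
open scoped ComplexConjugate ENNReal

namespace Pool.Agent.Q83.Wset

instance : Infinite M := by
  refine Infinite.of_injective (fun n : ℤ => em n) fun a b h => ?_
  have : cm (em a) a = cm (em b) a := by rw [show em a = em b from h]
  rw [cm_em, cm_em, if_pos rfl] at this
  by_contra hne
  rw [if_neg hne] at this
  exact absurd this (by decide)

lemma not_discrete : ¬ DiscreteTopology M := by
  intro h
  have h1 : ({1} : Set M) ∈ 𝓝 (1 : M) := (isOpen_discrete _).mem_nhds rfl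
  obtain ⟨n, hn⟩ := U_basis (V := ({1} : Set M)) h1
  have h2 : em (n - 1) ∈ cs n 1 := fun i hi => by rw [cm_em, if_neg (by omega)]; rfl
  have h3 : em (n - 1) = 1 := hn h2
  have h4 : cm (em (n - 1)) (n - 1) = 0 := by rw [h3]; rfl
  rw [cm_em, if_pos rfl] at h4
  exact absurd h4 (by decide)

/-- the lattice `F_3[t⁻¹]` -/
def Gam : Subgroup M where
  carrier := {x | ∀ i < 0, cm x i = 0}
  one_mem' := fun _ _ => rfl
  mul_mem' := by
    intro x y hx hy i hi
    simp [hx i hi, hy i hi]
  inv_mem' := by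
    intro x hx i hi
    simp [hx i hi]

lemma Gam_discrete : DiscreteTopology Gam := by
  apply discreteTopology_of_isOpen_singleton_one
  have : ({1} : Set Gam) = (fun x : Gam => (x : M)) ⁻¹' (cs 0 1) := by
    ext x
    simp only [mem_singleton_iff, mem_preimage]
    constructor
    · rintro rfl
      exact cs_self _ _
    · intro h
      apply Subtype.ext
      apply cm_ext
      intro i
      rcases lt_or_ge i 0 with hi | hi
      · exact x.2 i hi
      · exact h i hi
  rw [this]
  exact (cs_isOpen 0 1).preimage continuous_subtype_val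

lemma Gam_cocompact : CompactSpace (M ⧸ Gam) := by
  constructor
  have h : (univ : Set (M ⧸ Gam)) = (fun x : M => (QuotientGroup.mk x : M ⧸ Gam)) '' cs 0 1 := by
    apply Subset.antisymm _ (subset_univ _)
    intro q _
    obtain ⟨x, rfl⟩ := QuotientGroup.mk_surjective q
    obtain ⟨N, hN⟩ := cm_ev x
    refine ⟨mkM (fun i => if i < 0 then cm x i else 0) ⟨N, fun i hi => ?_⟩, fun i hi => ?_, ?_⟩
    · split_ifs
      · exact hN i hi
      · rfl
    · rw [cm_mkM, if_neg (by omega)]; rfl
    · rw [QuotientGroup.eq]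
      intro i hi
      rw [cm_mul, cm_inv, cm_mkM, if_pos hi]
      ring
  rw [h]
  exact (cs_isCompact 0 1).image continuous_quot_mk

instance : Countable R := by
  have hinj : Function.Injective (fun r : R => pos (Multiplicative.toAdd (r : M))) := by
    intro r r' h
    apply Subtype.ext
    apply cm_ext
    intro i
    rcases lt_or_ge i 6 with hi | hi
    · rw [r.2 i hi, r'.2 i hi]
    · obtain ⟨n, rfl⟩ := Int.eq_ofNat_of_zero_le (show 0 ≤ i by omega)
      have := congrArg (fun d => DD.f d n) h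
      exact this
  exact hinj.countable

/-- the index set -/
def B : Set (M × (M ≃ₜ* M)) :=
  Set.range fun q : (k : ℤ) × Tk k × R × Fin 6 => (lam q.1 q.2.2.1 q.2.2.2, au q.1 q.2.1)

lemma B_countable : B.Countable := Set.countable_range _

lemma au_level (k : ℤ) (τ : Tk k) : (au k τ) ⁻¹' (cs 6 1) = cs (nn k) 1 := by
  ext x
  rw [mem_preimage, ← map_one (au k τ), au_mem, map_one]

lemma cs_measure_ne {m n : ℤ} (h : m ≠ n) (μ : Measure M) [μ.IsHaarMeasure] :
    μ.real (cs m 1) ≠ μ.real (cs n 1) := by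
  wlog hlt : m < n generalizing m n with H
  · exact (H h.symm (lt_of_le_of_ne (not_lt.1 hlt) h.symm)).symm
  obtain ⟨k, hk⟩ := Int.eq_ofNat_of_zero_le (sub_nonneg.2 hlt.le)
  have h1 : n = m + k := by
    have : ((k : ℕ) : ℤ) = Int.ofNat k := rfl
    omega
  rw [h1, measure_pow]
  have h2 := real_pos μ m
  have h3 : (1 : ℝ) < 3 ^ k := one_lt_pow₀ (by norm_num) (by
    rintro rfl
    simp at h1
    exact h h1.symm)
  nlinarith

lemma modulus (k : ℤ) (τ : Tk k) : mulEquivHaarChar (au k τ) ≠ 1 := by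
  intro h
  have h1 := mulEquivHaarChar_smul_preimage (haar : Measure M) (X := cs 6 1) (au k τ)
  rw [h, one_smul, au_level] at h1
  refine cs_measure_ne (m := nn k) (n := 6) ?_ (haar : Measure M) (by unfold Measure.real; rw [h1])
  unfold nn
  split_ifs <;> omega

lemma one_mem : ((1 : M), au 0 ⟨0, fun j hj => absurd rfl hj⟩) ∈ B := by
  refine ⟨⟨0, ⟨0, fun j hj => absurd rfl hj⟩, ⟨1, fun _ _ => rfl⟩, 0⟩, ?_⟩
  simp only [Prod.mk.injEq, and_true]
  unfold lam gk
  rw [dv_zero]
  simp

lemma not_product : ¬ ∃ (Λ : Set M) (A : Set (M ≃ₜ* M)), B = Λ ×ˢ A := by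
  rintro ⟨Λ, A, h⟩
  have h1 : (1 : M) ∈ Λ := by
    have := one_mem
    rw [h] at this
    exact this.1
  set τ : Tk 2 := ⟨0, fun j hj => absurd rfl hj⟩ with hτ
  have h2 : au 2 τ ∈ A := by
    have : (lam 2 (1 : M) 0, au 2 τ) ∈ B := ⟨⟨2, τ, ⟨1, fun _ _ => rfl⟩, 0⟩, rfl⟩
    rw [h] at this
    exact this.2
  have h3 : ((1 : M), au 2 τ) ∈ B := by
    rw [h]; exact ⟨h1, h2⟩
  obtain ⟨⟨k, τ', r, j⟩, hq⟩ := h3
  simp only [Prod.mk.injEq] at hq
  obtain ⟨hl, ha⟩ := hq
  have hk : nn k = nn 2 := by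
    have h4 := au_level k τ'
    rw [ha, au_level] at h4
    by_contra hne
    exact cs_measure_ne hne (haar : Measure M) (by rw [h4])
  have hk2 : k = 2 := by
    unfold nn at hk
    split_ifs at hk <;> omega
  subst hk2
  have h5 : cm (lam 2 r j) (-1) = 0 := by rw [hl]; rfl
  unfold lam gk at h5
  rw [if_pos rfl, cm_mul, cm_mul, cm_em, if_pos rfl, r.2 (-1) (by norm_num)] at h5
  have h6 : cm (dv j) (-1) = 0 := by
    show ext0 (D j) (-1) = 0
    exact ext0_out _ _ (by norm_num)
  rw [h6] at h5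
  exact absurd h5 (by decide)

end Pool.Agent.Q83.Wset
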