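import Pool.Agent.Q83.Wset.Mult

open MeasureTheory Topology Set Filter
open scoped ComplexConjugate ENNReal

namespace Pool.Agent.Q83.Wset

variable (μ : Measure M) [μ.IsHaarMeasure]

lemma real_pos (n : ℤ) : 0 < μ.real (cs n 1) :=
  ENNReal.toReal_pos (cs_pos μ n 1).ne' (cs_finite μ n 1).ne

/-- a unit vector -/
noncomputable def em (n : ℤ) : M := Multiplicative.ofAdd (e n)

lemma cm_em (n i : ℤ) : cm (em n) i = if i = n then 1 else 0 := co_e n i

lemma ch_em (y : ℤ →₀ ZMod 3) (n : ℤ) : ch y (em n) = ZMod.toCircle (y n) := by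
  rw [ch_apply]
  congr 1
  unfold pr Finsupp.sum
  simp only [cm_em, mul_ite, mul_one, mul_zero]
  rw [Finset.sum_ite_eq']
  split_ifs with h
  · rfl
  · exact (Finsupp.notMem_support_iff.1 h).symm

lemma toCircle_ne {c : ZMod 3} (h : c ≠ 0) : ZMod.toCircle c ≠ 1 := by
  intro h'
  apply h
  apply ZMod.injective_toCircle
  rw [h', AddChar.map_zero_eq_one]

/-- characters with a nonzero coefficient below `n` have vanishing integrals over cosets -/
lemma E_int_zero (y : ℤ →₀ ZMod 3) (n j : ℤ) (hj : j < n) (hy : y j ≠ 0) (x : M) :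
    ∫ z in cs n x, E y z ∂μ = 0 := by
  refine char_int' μ (ch y) n x ⟨em j, fun i hi => ?_, ?_⟩
  · rw [cm_em, if_neg (by omega)]; rfl
  · rw [ch_em]; exact toCircle_ne hy

lemma E_triv (y : ℤ →₀ ZMod 3) (n : ℤ) (hy : ∀ j < n, y j = 0) {v : M} (hv : v ∈ cs n 1) :
    ch y v = 1 := by
  rw [ch_apply]
  have : pr y v = 0 := by
    unfold pr Finsupp.sum
    apply Finset.sum_eq_zero
    intro j _
    show y j * cm v j = 0
    rcases lt_or_ge j n with h | h
    · rw [hy j h, zero_mul]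
    · rw [hv j h, cm_one, mul_zero]
  rw [this, AddChar.map_zero_eq_one]

lemma measure_step (n : ℤ) : μ.real (cs (n + 1) 1) = 3 * μ.real (cs n 1) := by
  have h := detect μ (F := fun _ => 1) n 1 0 (integrableOn_const (cs_finite μ _ _).ne)
  simp only [one_mul, zero_add, E_zero, map_one] at h
  rw [setIntegral_const] at h
  have h2 : ∀ c : ZMod 3, E (Finsupp.single n c) 1 * ∫ z in cs (n + 1) 1, conj (E (Finsupp.single n c) z) ∂μ
      = if c = 0 then (μ.real (cs (n + 1) 1) : ℂ) else 0 := by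
    intro c
    rw [integral_conj]
    split_ifs with hc
    · subst hc
      simp only [Finsupp.single_zero, E_zero, one_mul]
      rw [setIntegral_const]
      simp
    · rw [E_int_zero μ (Finsupp.single n c) (n + 1) n (by omega) (by simpa using hc)]
      simp
  simp only [h2, Finset.sum_ite_eq', Finset.mem_univ, if_true] at h
  simp only [Complex.real_smul, mul_one] at h
  exact_mod_cast h

lemma measure_pow (n : ℤ) (k : ℕ) : μ.real (cs (n + k) 1) = 3 ^ k * μ.real (cs n 1) := by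
  induction k with
  | zero => simp
  | succ k ih =>
    rw [show (n + ((k + 1 : ℕ) : ℤ)) = (n + k) + 1 by push_cast; ring, measure_step, ih]
    ring

lemma cs_integrable {f : M → ℂ} (hf : MemLp f 2 μ) (n : ℤ) (x : M) :
    IntegrableOn f (cs n x) μ := by
  have : IsFiniteMeasure (μ.restrict (cs n x)) := ⟨by
    rw [Measure.restrict_apply_univ]; exact cs_finite μ n x⟩
  exact (hf.restrict (cs n x)).integrable (by norm_num)

lemma cs_l2 {f : M → ℂ} (hf : MemLp f 2 μ) (n : ℤ) (x : M) :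
    ‖∫ z in cs n x, f z ∂μ‖ ^ 2 ≤ μ.real (cs n 1) * ∫ z, ‖f z‖ ^ 2 ∂μ := by
  have hfin : IsFiniteMeasure (μ.restrict (cs n x)) := ⟨by
    rw [Measure.restrict_apply_univ]; exact cs_finite μ n x⟩
  have h1 : ‖∫ z in cs n x, f z ∂μ‖ ≤ ∫ z in cs n x, ‖f z‖ ∂μ := norm_integral_le_integral_norm _
  have h2 := (hf.restrict (cs n x)).norm
  have h3 : (∫ z in cs n x, ‖f z‖ ∂μ) ^ 2 ≤ μ.real (cs n 1) * ∫ z in cs n x, ‖f z‖ ^ 2 ∂μ := by
    have hone : MemLp (fun _ : M => (1 : ℝ)) 2 (μ.restrict (cs n x)) := memLp_const 1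
    have key := integral_mul_le_Lp_mul_Lq_of_nonneg (p := 2) (q := 2) (μ := μ.restrict (cs n x))
      Real.HolderConjugate.two_two (f := fun z => ‖f z‖) (g := fun _ => (1 : ℝ))
      (Eventually.of_forall fun z => norm_nonneg _) (Eventually.of_forall fun z => zero_le_one)
      (by simpa using h2) (by simpa using hone)
    simp only [mul_one, Real.rpow_ofNat, one_pow, integral_const, smul_eq_mul] at key
    rw [← Real.sqrt_eq_rpow, ← Real.sqrt_eq_rpow] at key
    have h5 : 0 ≤ ∫ z in cs n x, ‖f z‖ ^ 2 ∂μ := integral_nonneg fun _ => by positivity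
    have h4 := pow_le_pow_left₀ (integral_nonneg fun _ => norm_nonneg _) key 2
    rw [mul_pow, Real.sq_sqrt h5, Real.sq_sqrt (by positivity), Measure.real,
      Measure.restrict_apply_univ] at h4
    rw [mul_comm, ← real_cs μ n x]
    exact h4
  have h6 : ∫ z in cs n x, ‖f z‖ ^ 2 ∂μ ≤ ∫ z, ‖f z‖ ^ 2 ∂μ :=
    setIntegral_le_integral (by simpa using hf.norm.integrable_sq)
      (Eventually.of_forall fun _ => by positivity)
  calc ‖∫ z in cs n x, f z ∂μ‖ ^ 2 ≤ (∫ z in cs n x, ‖f z‖ ∂μ) ^ 2 :=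
        pow_le_pow_left₀ (norm_nonneg _) h1 2
    _ ≤ μ.real (cs n 1) * ∫ z in cs n x, ‖f z‖ ^ 2 ∂μ := h3
    _ ≤ _ := mul_le_mul_of_nonneg_left h6 (real_pos μ n).le

/-- if the averages over cosets of different levels agree, they vanish -/
lemma avg_zero {f : M → ℂ} (hf : MemLp f 2 μ)
    (h : ∀ n x, 3 * ∫ z in cs n x, f z ∂μ = ∫ z in cs (n + 1) x, f z ∂μ) (n : ℤ) (x : M) :
    ∫ z in cs n x, f z ∂μ = 0 := by
  have h1 : ∀ k : ℕ, 3 ^ k * ∫ z in cs n x, f z ∂μ = ∫ z in cs (n + k) x, f z ∂μ := by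
    intro k
    induction k with
    | zero => simp
    | succ k ih =>
      rw [show (n + ((k + 1 : ℕ) : ℤ)) = (n + k) + 1 by push_cast; ring, ← h, ← ih]
      ring
  set I := ∫ z in cs n x, f z ∂μ with hI
  set C := μ.real (cs n 1) * ∫ z, ‖f z‖ ^ 2 ∂μ with hC
  have h2 : ∀ k : ℕ, (3 : ℝ) ^ k * ‖I‖ ^ 2 ≤ C := by
    intro k
    have h3 := cs_l2 μ hf (n + k) x
    rw [← h1, norm_mul, mul_pow, norm_pow, measure_pow] at h3
    have h4 : ‖(3 : ℂ)‖ = 3 := by simp
    rw [h4] at h3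
    have h5 : (0 : ℝ) < 3 ^ k := by positivity
    have h6 : (3 : ℝ) ^ k * ((3 : ℝ) ^ k * ‖I‖ ^ 2) ≤ 3 ^ k * C := by
      rw [hC]
      calc (3 : ℝ) ^ k * ((3 : ℝ) ^ k * ‖I‖ ^ 2) = ((3 : ℝ) ^ k) ^ 2 * ‖I‖ ^ 2 := by ring
        _ ≤ _ := h3
        _ = _ := by ring
    exact le_of_mul_le_mul_left h6 h5
  by_contra hne
  have hpos : 0 < ‖I‖ ^ 2 := by positivity
  obtain ⟨k, hk⟩ := pow_unbounded_of_one_lt (C / ‖I‖ ^ 2) (by norm_num : (1 : ℝ) < 3)
  have := h2 k
  rw [div_lt_iff₀ hpos] at hk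
  linarith

/-- the subgroup `V n` -/
def V (n : ℤ) : Subgroup M where
  carrier := cs n 1
  one_mem' := cs_self n 1
  mul_mem' := by
    intro x y hx hy i hi
    simp [hx i hi, hy i hi]
  inv_mem' := by
    intro x hx i hi
    simp [hx i hi]

lemma mk_eq {n : ℤ} {x z : M} : (QuotientGroup.mk z : M ⧸ V n) = QuotientGroup.mk x ↔ z ∈ cs n x := by
  rw [eq_comm, QuotientGroup.eq]
  constructor
  · intro h i hi
    have := h i hi
    simp at this
    rw [neg_add_eq_zero] at this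
    exact this.symm
  · intro h i hi
    simp [h i hi]

lemma fin_union_zero {f : M → ℂ} (hf : MemLp f 2 μ) (n : ℤ)
    (h : ∀ x, ∫ z in cs n x, f z ∂μ = 0) (S : Finset (M ⧸ V n)) :
    ∫ z in {z : M | (QuotientGroup.mk z : M ⧸ V n) ∈ S}, f z ∂μ = 0 ∧
    IntegrableOn f {z : M | (QuotientGroup.mk z : M ⧸ V n) ∈ S} μ ∧
    MeasurableSet {z : M | (QuotientGroup.mk z : M ⧸ V n) ∈ S} := by
  classical
  induction S using Finset.induction_on with
  | empty => simp
  | insert a S ha ih =>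
    obtain ⟨x, rfl⟩ := QuotientGroup.mk_surjective a
    have h1 : {z : M | (QuotientGroup.mk z : M ⧸ V n) ∈ insert (QuotientGroup.mk x : M ⧸ V n) S}
        = cs n x ∪ {z : M | (QuotientGroup.mk z : M ⧸ V n) ∈ S} := by
      ext z
      simp only [Finset.mem_insert, mem_ofPred_eq, mem_union, mk_eq]
    have hd : Disjoint (cs n x) {z : M | (QuotientGroup.mk z : M ⧸ V n) ∈ S} := by
      rw [Set.disjoint_left]
      intro z hz hz'
      rw [mem_ofPred_eq, mk_eq.2 hz] at hz'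
      exact ha hz'
    rw [h1]
    refine ⟨?_, ?_, ?_⟩
    · rw [setIntegral_union hd ih.2.2 (cs_integrable μ hf n x) ih.2.1, h, ih.1, add_zero]
    · exact (cs_integrable μ hf n x).union ih.2.1
    · exact (cs_meas n x).union ih.2.2

/-- a function whose integrals over all cosets vanish is zero -/
lemma ae_zero {f : M → ℂ} (hf : MemLp f 2 μ) (h : ∀ n x, ∫ z in cs n x, f z ∂μ = 0) :
    f =ᵐ[μ] 0 := by
  apply ae_eq_zero_of_forall_setIntegral_isCompact_eq_zero' (hf.locallyIntegrable (by norm_num))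
  intro K hK
  -- thickenings of `K`
  set Kn : ℕ → Set M := fun n => {z | ∃ x ∈ K, z ∈ cs (-(n : ℤ)) x} with hKn
  have hfin : ∀ n : ℕ, ∃ S : Finset (M ⧸ V (-(n : ℤ))), Kn n
      = {z : M | (QuotientGroup.mk z : M ⧸ V (-(n : ℤ))) ∈ S} := by
    intro n
    have hfinite : (((fun z : M => (QuotientGroup.mk z : M ⧸ V (-(n : ℤ))))) '' K).Finite := by
      obtain ⟨t, htK, ht⟩ := hK.elim_nhds_subcover (fun x => cs (-(n : ℤ)) x)
        (fun x _ => (cs_isOpen _ x).mem_nhds (cs_self _ x))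
      refine (t.finite_toSet.image (fun z : M => (QuotientGroup.mk z : M ⧸ V (-(n : ℤ))))).subset ?_
      rintro _ ⟨z, hz, rfl⟩
      have := ht hz
      rw [mem_iUnion₂] at this
      obtain ⟨x, hx, hzx⟩ := this
      exact ⟨x, hx, (mk_eq.2 hzx).symm⟩
    refine ⟨hfinite.toFinset, ?_⟩
    ext z
    simp only [hKn, mem_ofPred_eq, Finite.mem_toFinset, mem_image]
    constructor
    · rintro ⟨x, hx, hz⟩
      exact ⟨x, hx, (mk_eq.2 hz).symm⟩
    · rintro ⟨x, hx, hz⟩
      exact ⟨x, hx, mk_eq.1 hz.symm⟩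
  have hKi : K = ⋂ n : ℕ, Kn n := by
    ext z
    simp only [mem_iInter, hKn, mem_ofPred_eq]
    constructor
    · intro hz n
      exact ⟨z, hz, cs_self _ z⟩
    · intro hz
      by_contra hzK
      have hopen : IsOpen Kᶜ := hK.isClosed.isOpen_compl
      have h1 : (fun v : M => z * v) ⁻¹' Kᶜ ∈ 𝓝 (1 : M) := by
        apply (continuous_const_mul z).continuousAt.preimage_mem_nhds
        rw [mul_one]
        exact hopen.mem_nhds hzK
      obtain ⟨m, hm⟩ := U_basis (V := (fun v : M => z * v) ⁻¹' Kᶜ) h1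
      obtain ⟨x, hx, hzx⟩ := hz (-m).toNat
      have : x * z⁻¹ ∈ (fun v : M => z * v) ⁻¹' Kᶜ := by
        apply hm
        intro i hi
        show cm (x * z⁻¹) i = 0
        have := hzx i (by have := Int.self_le_toNat (-m); omega)
        simp [this]
      apply this
      show z * (x * z⁻¹) ∈ K
      rwa [mul_comm x, mul_inv_cancel_left]
  have hanti : Antitone Kn := by
    intro a b hab z
    simp only [hKn, mem_ofPred_eq]
    rintro ⟨x, hx, hz⟩
    exact ⟨x, hx, cs_mono (by omega) x hz⟩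
  have hlim := tendsto_setIntegral_of_antitone (f := f) (μ := μ) (s := Kn)
    (fun n => by obtain ⟨S, hS⟩ := hfin n; rw [hS]; exact (fin_union_zero μ hf _ (h _) S).2.2)
    hanti ⟨0, by obtain ⟨S, hS⟩ := hfin 0; rw [hS]; exact (fin_union_zero μ hf _ (h _) S).2.1⟩
  rw [← hKi] at hlim
  have hz : ∀ n : ℕ, ∫ z in Kn n, f z ∂μ = 0 := fun n => by
    obtain ⟨S, hS⟩ := hfin n
    rw [hS]
    exact (fin_union_zero μ hf _ (h _) S).1
  simp only [hz] at hlim
  exact tendsto_nhds_unique hlim tendsto_const_nhds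

end Pool.Agent.Q83.Wset
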