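import Pool.Agent.Q83.Wset.Idx

open MeasureTheory Topology Set Filter
open scoped ComplexConjugate ENNReal

namespace Pool.Agent.Q83.Wset

lemma E_conj (y : ℤ →₀ ZMod 3) (x : M) : conj (E y x) = E (-y) x := by
  have h : E (y + -y) x = 1 := by rw [add_neg_cancel, E_zero]
  rw [E_add] at h
  have h2 := E_mul_conj y x
  have hne : E y x ≠ 0 := by
    intro h0
    rw [h0, zero_mul] at h
    exact zero_ne_one h
  exact mul_left_cancel₀ hne (h2.trans h.symm)

variable (μ : Measure M) [μ.IsHaarMeasure]

/-- normalising constant -/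
noncomputable def cc : ℂ := ((μ.real (cs 6 1))⁻¹ : ℝ)

lemma cc_ne : cc μ ≠ 0 := by
  unfold cc
  exact_mod_cast (inv_pos.2 (real_pos μ 6)).ne'

/-- the wavelet -/
noncomputable def psi (z : M) : ℂ := (cs 6 1).indicator (fun z => cc μ * ∑ i, E (pv i) z) z

lemma E_au (k : ℤ) (τ : Tk k) (i : Fin 6) (z : M) : E (pv i) (au k τ z) = E (yy k τ i) z := by
  rw [E_eq, E_eq, pr_au]

lemma psi_at (k : ℤ) (τ : Tk k) (l z : M) : psi μ (au k τ z * l⁻¹)
    = (cs (nn k) ((au k τ).symm l)).indicator
      (fun z => cc μ * ∑ i, conj (E (pv i) l) * E (yy k τ i) z) z := by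
  have h : au k τ z * l⁻¹ ∈ cs 6 1 ↔ z ∈ cs (nn k) ((au k τ).symm l) := by
    rw [← au_mem, ContinuousMulEquiv.apply_symm_apply]
    simp only [mem_cs, cm_mul, cm_inv, cm_one]
    refine forall₂_congr fun i _ => ?_
    rw [add_neg_eq_zero]
  unfold psi
  by_cases hz : z ∈ cs (nn k) ((au k τ).symm l)
  · rw [indicator_of_mem hz, indicator_of_mem (h.2 hz)]
    congr 1
    refine Finset.sum_congr rfl fun i _ => ?_
    rw [E_mul, E_au, mul_comm]
    congr 1
    have h1 : E (pv i) l * E (pv i) l⁻¹ = 1 := by rw [← E_mul, mul_inv_cancel, E_one]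
    have h2 := E_mul_conj (pv i) l
    have hne : E (pv i) l ≠ 0 := by
      intro h0
      rw [h0, zero_mul] at h1
      exact zero_ne_one h1
    exact mul_left_cancel₀ hne (h1.trans h2.symm)
  · rw [indicator_of_notMem hz, indicator_of_notMem (fun h' => hz (h.1 h'))]

/-- locally supported trigonometric sums are in every `L^p` -/
lemma ind_memLp (n : ℤ) (x : M) (F : M → ℂ) (hF : Continuous F) (p : ℝ≥0∞) :
    MemLp ((cs n x).indicator F) p μ := by
  rw [memLp_indicator_iff_restrict (cs_meas n x)]
  have : IsFiniteMeasure (μ.restrict (cs n x)) := ⟨by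
    rw [Measure.restrict_apply_univ]; exact cs_finite μ n x⟩
  obtain ⟨C, hC⟩ := (cs_isCompact n x).exists_bound_of_continuousOn hF.continuousOn
  refine MemLp.of_bound hF.aestronglyMeasurable C ?_
  exact (ae_restrict_iff' (cs_meas n x)).2 (Eventually.of_forall fun z hz => hC z hz)

lemma cont_sum (a : Fin 6 → ℂ) (y : Fin 6 → ℤ →₀ ZMod 3) (c : ℂ) :
    Continuous fun z : M => c * ∑ i, a i * E (y i) z :=
  continuous_const.mul (continuous_finsetSum _ fun i _ => continuous_const.mul (E_cont _))

lemma psi_memLp (p : ℝ≥0∞) : MemLp (psi μ) p μ := by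
  have := ind_memLp μ 6 1 (fun z => cc μ * ∑ i, 1 * E (pv i) z) (cont_sum _ _ _) p
  simp only [one_mul] at this
  exact this

/-- The Fourier transform of the wavelet. -/
lemma psi_ft (ξ : PontryaginDual M) : ∫ z, psi μ z * conj ((ξ z : Circle) : ℂ) ∂μ
    = (⋃ i, An 6 (ch (pv i))).indicator (fun _ => (1 : ℂ)) ξ := by
  have h0 : ∀ z, psi μ z * conj ((ξ z : Circle) : ℂ)
      = (cs 6 1).indicator (fun z => cc μ * ∑ i, (((ch (pv i) * ξ⁻¹) z : Circle) : ℂ)) z := by
    intro z
    unfold psi
    by_cases hz : z ∈ cs 6 1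
    · rw [indicator_of_mem hz, indicator_of_mem hz, mul_assoc, Finset.sum_mul]
      congr 1
      refine Finset.sum_congr rfl fun i _ => ?_
      rw [← Circle.coe_inv_eq_conj]
      rfl
    · rw [indicator_of_notMem hz, indicator_of_notMem hz, zero_mul]
  simp only [h0]
  rw [integral_indicator (cs_meas _ _), integral_const_mul, integral_finsetSum]
  · have hsep : ∀ i j : Fin 6, i ≠ j → ∃ v ∈ cs 6 1, ch (pv i) v ≠ ch (pv j) v := by
      intro i j hij
      by_contra hcon
      push Not at hcon
      apply hij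
      apply P_inj
      · have := hcon (em 0) (fun i hi => by rw [cm_em, if_neg (by omega)]; rfl)
        rw [ch_em, ch_em, pv_zero, pv_zero] at this
        exact ZMod.injective_toCircle this
      · have := hcon (em 1) (fun i hi => by rw [cm_em, if_neg (by omega)]; rfl)
        rw [ch_em, ch_em, pv_one, pv_one] at this
        exact ZMod.injective_toCircle this
    by_cases hξ : ξ ∈ ⋃ i, An 6 (ch (pv i))
    · rw [indicator_of_mem hξ]
      obtain ⟨i, hi⟩ := mem_iUnion.1 hξ
      rw [Finset.sum_eq_single i]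
      · rw [char_int μ _ 6 1]
        · unfold cc
          rw [map_one, Circle.coe_one, one_mul, ← Complex.ofReal_mul,
            inv_mul_cancel₀ (real_pos μ 6).ne', Complex.ofReal_one]
        · intro v hv
          show ch (pv i) v * (ξ v)⁻¹ = 1
          rw [hi v hv, mul_inv_cancel]
      · intro j _ hj
        apply char_int'
        obtain ⟨v, hv, hne⟩ := hsep j i hj
        refine ⟨v, hv, ?_⟩
        show ch (pv j) v * (ξ v)⁻¹ ≠ 1
        rw [hi v hv]
        intro h
        exact hne (mul_inv_eq_one.1 h)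
      · intro h
        exact absurd (Finset.mem_univ i) h
    · rw [indicator_of_notMem hξ]
      rw [Finset.sum_eq_zero, mul_zero]
      intro i _
      apply char_int'
      by_contra hcon
      push Not at hcon
      apply hξ
      rw [mem_iUnion]
      refine ⟨i, fun v hv => ?_⟩
      have : ch (pv i) v * (ξ v)⁻¹ = 1 := hcon v hv
      exact (mul_inv_eq_one.1 this).symm
  · intro i _
    have : IsFiniteMeasure (μ.restrict (cs 6 1)) := ⟨by
      rw [Measure.restrict_apply_univ]; exact cs_finite μ 6 1⟩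
    refine Integrable.of_bound (C := 1) ?_ (Eventually.of_forall fun z => by rw [Circle.norm_coe])
    exact (Continuous.comp (by fun_prop) (map_continuous (ch (pv i) * ξ⁻¹))).aestronglyMeasurable

/-- intersections of cosets -/
lemma cs_inter (n n' : ℤ) (x x' : M) : cs n x ∩ cs n' x' = ∅ ∨
    ∃ w, cs n x ∩ cs n' x' = cs (min n n') w := by
  rcases (cs n x ∩ cs n' x').eq_empty_or_nonempty with h | ⟨w, hw1, hw2⟩
  · exact Or.inl h
  · right
    refine ⟨w, ?_⟩
    rw [← cs_eq hw1, ← cs_eq hw2]
    ext z
    constructor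
    · rintro ⟨h1, h2⟩ i hi
      rcases min_choice n n' with h | h
      · rw [h] at hi; exact h1 i hi
      · rw [h] at hi; exact h2 i hi
    · intro h
      exact ⟨cs_mono (min_le_left _ _) w h, cs_mono (min_le_right _ _) w h⟩

lemma inner_ind (A A' : Set M) (hA : MeasurableSet A) (hA' : MeasurableSet A') (F F' : M → ℂ) :
    ∫ z, A.indicator F z * conj (A'.indicator F' z) ∂μ = ∫ z in A ∩ A', F z * conj (F' z) ∂μ := by
  rw [← integral_indicator (hA.inter hA')]
  congr 1
  funext z
  by_cases h1 : z ∈ A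
  · by_cases h2 : z ∈ A'
    · rw [indicator_of_mem h1, indicator_of_mem h2,
        indicator_of_mem (show z ∈ A ∩ A' from ⟨h1, h2⟩)]
    · rw [indicator_of_notMem h2, indicator_of_notMem (show z ∉ A ∩ A' from fun h => h2 h.2),
        map_zero, mul_zero]
  · rw [indicator_of_notMem h1, indicator_of_notMem (show z ∉ A ∩ A' from fun h => h1 h.1),
      zero_mul]

lemma E_integrable (n : ℤ) (x : M) (y : ℤ →₀ ZMod 3) (a : ℂ) :
    IntegrableOn (fun z => a * E y z) (cs n x) μ := by
  have : IsFiniteMeasure (μ.restrict (cs n x)) := ⟨by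
    rw [Measure.restrict_apply_univ]; exact cs_finite μ n x⟩
  refine Integrable.const_mul ?_ a
  exact Integrable.of_bound (C := 1) (E_cont y).aestronglyMeasurable
    (Eventually.of_forall fun z => by rw [E_norm])

lemma double_sum (n : ℤ) (x : M) (a a' : Fin 6 → ℂ) (y y' : Fin 6 → ℤ →₀ ZMod 3) (c : ℂ) :
    ∫ z in cs n x, (c * ∑ i, a i * E (y i) z) * conj (c * ∑ i, a' i * E (y' i) z) ∂μ
      = c * conj c * ∑ i, ∑ j, a i * conj (a' j) * ∫ z in cs n x, E (y i - y' j) z ∂μ := by
  have h : ∀ z, (c * ∑ i, a i * E (y i) z) * conj (c * ∑ i, a' i * E (y' i) z)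
      = ∑ i, ∑ j, (c * conj c * (a i * conj (a' j))) * E (y i - y' j) z := by
    intro z
    simp only [map_mul, map_sum]
    rw [show c * ∑ i, a i * E (y i) z = ∑ i, c * (a i * E (y i) z) from Finset.mul_sum _ _ _,
      Finset.sum_mul]
    refine Finset.sum_congr rfl fun i _ => ?_
    rw [Finset.mul_sum, Finset.mul_sum]
    refine Finset.sum_congr rfl fun j _ => ?_
    rw [sub_eq_add_neg, E_add, E_conj]
    ring
  simp only [h]
  rw [integral_finsetSum]
  · rw [Finset.mul_sum]
    refine Finset.sum_congr rfl fun i _ => ?_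
    rw [integral_finsetSum _ (fun j _ => E_integrable μ n x _ _), Finset.mul_sum]
    refine Finset.sum_congr rfl fun j _ => ?_
    rw [integral_const_mul]
    ring
  · intro i _
    exact integrable_finsetSum _ fun j _ => E_integrable μ n x _ _

/-- different automorphisms: orthogonality -/
lemma orth_ne (k k' : ℤ) (τ : Tk k) (τ' : Tk k') (l l' : M)
    (h : ¬ (k = k' ∧ (τ : ℤ →₀ ZMod 3) = τ')) :
    ∫ z, psi μ (au k τ z * l⁻¹) * conj (psi μ (au k' τ' z * l'⁻¹)) ∂μ = 0 := by
  simp only [psi_at]
  rw [inner_ind μ _ _ (cs_meas _ _) (cs_meas _ _)]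
  rcases cs_inter (nn k) (nn k') ((au k τ).symm l) ((au k' τ').symm l') with h0 | ⟨w, hw⟩
  · rw [h0, Measure.restrict_empty, integral_zero_measure]
  · rw [hw, double_sum, Finset.sum_eq_zero, mul_zero]
    intro i _
    apply Finset.sum_eq_zero
    intro j _
    obtain ⟨m, hm, hne⟩ : ∃ m < min (nn k) (nn k'), yy k τ i m ≠ yy k' τ' j m := by
      by_contra hcon
      push Not at hcon
      obtain ⟨h1, h2, -⟩ := yy_sep k k' τ τ' i j hcon
      exact h ⟨h1, h2⟩
    rw [E_int_zero μ _ _ m hm, mul_zero]
    rw [Finsupp.sub_apply, sub_ne_zero]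
    exact hne

/-- same automorphism, same coset -/
lemma inner_same (k : ℤ) (τ : Tk k) (l l' : M) (hl : l ∈ cs 6 l') :
    ∫ z, psi μ (au k τ z * l⁻¹) * conj (psi μ (au k τ z * l'⁻¹)) ∂μ
      = cc μ * conj (cc μ) * ((∑ i, conj (E (pv i) l) * E (pv i) l')
        * (μ.real (cs (nn k) 1) : ℂ)) := by
  simp only [psi_at]
  rw [inner_ind μ _ _ (cs_meas _ _) (cs_meas _ _)]
  have h1 : (au k τ).symm l ∈ cs (nn k) ((au k τ).symm l') := by
    rw [← au_mem, ContinuousMulEquiv.apply_symm_apply, ContinuousMulEquiv.apply_symm_apply]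
    exact hl
  rw [cs_eq h1, inter_self, double_sum]
  have h2 : ∀ i, ∑ j, conj (E (pv i) l) * conj (conj (E (pv j) l')) *
      ∫ z in cs (nn k) ((au k τ).symm l'), E (yy k τ i - yy k τ j) z ∂μ
      = conj (E (pv i) l) * E (pv i) l' * (μ.real (cs (nn k) 1) : ℂ) := by
    intro i
    rw [Finset.sum_eq_single i]
    · rw [sub_self, Complex.conj_conj]
      simp only [E_zero]
      rw [setIntegral_const, real_cs]
      simp
    · intro j _ hj
      obtain ⟨m, hm, hne⟩ : ∃ m < min (nn k) (nn k), yy k τ i m ≠ yy k τ j m := by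
        by_contra hcon
        push Not at hcon
        obtain ⟨-, -, h3⟩ := yy_sep k k τ τ i j hcon
        exact hj h3.symm
      rw [E_int_zero μ _ _ m (by rwa [min_self] at hm), mul_zero]
      rw [Finsupp.sub_apply, sub_ne_zero]
      exact hne
    · intro h4
      exact absurd (Finset.mem_univ i) h4
  simp only [h2, ← Finset.sum_mul]

/-- same automorphism -/
lemma orth_same (k : ℤ) (τ : Tk k) (l l' : M)
    (h : l ∈ cs 6 l' → ∑ i, conj (E (pv i) l) * E (pv i) l' = 0) :
    ∫ z, psi μ (au k τ z * l⁻¹) * conj (psi μ (au k τ z * l'⁻¹)) ∂μ = 0 := by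
  by_cases hl : l ∈ cs 6 l'
  · rw [inner_same μ k τ l l' hl, h hl]; ring
  · simp only [psi_at]
    rw [inner_ind μ _ _ (cs_meas _ _) (cs_meas _ _)]
    have h0 : cs (nn k) ((au k τ).symm l) ∩ cs (nn k) ((au k τ).symm l') = ∅ := by
      rw [eq_empty_iff_forall_notMem]
      rintro z ⟨h1, h2⟩
      apply hl
      have h3 := cs_trans (cs_symm h1) h2
      rw [← au_mem, ContinuousMulEquiv.apply_symm_apply, ContinuousMulEquiv.apply_symm_apply] at h3
      exact h3
    rw [h0, Measure.restrict_empty, integral_zero_measure]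

lemma psi_at_memLp (k : ℤ) (τ : Tk k) (l : M) (p : ℝ≥0∞) :
    MemLp (fun z => psi μ (au k τ z * l⁻¹)) p μ := by
  simp only [psi_at]
  exact ind_memLp μ _ _ _ (cont_sum _ _ _) p

lemma psi_at_ne (k : ℤ) (τ : Tk k) (l : M) :
    ¬ (fun z => psi μ (au k τ z * l⁻¹)) =ᵐ[μ] 0 := by
  intro h
  have h1 := inner_same μ k τ l l (cs_self _ _)
  rw [integral_eq_zero_of_ae] at h1
  · have h2 : ∀ i, conj (E (pv i) l) * E (pv i) l = 1 := fun i => by
      rw [mul_comm]; exact E_mul_conj _ _
    simp only [h2] at h1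
    have h3 : (μ.real (cs (nn k) 1) : ℂ) ≠ 0 := by exact_mod_cast (real_pos μ (nn k)).ne'
    have h4 := cc_ne μ
    have h5 : conj (cc μ) ≠ 0 := by
      intro h0
      exact h4 ((map_eq_zero _).1 h0)
    refine absurd h1.symm (mul_ne_zero (mul_ne_zero h4 h5) (mul_ne_zero ?_ h3))
    simp
  · filter_upwards [h] with z hz
    simp only [Pi.zero_apply] at hz ⊢
    rw [hz, zero_mul]

/-- representatives of the cosets of level `6` -/
def R : Set M := {r | ∀ i < 6, cm r i = 0}

/-- an extra translation -/
noncomputable def gk (k : ℤ) : M := if k = 2 then em (-1) else 1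

lemma gk_mem (k : ℤ) : gk k ∈ cs 6 1 := by
  unfold gk
  split_ifs
  · intro i hi
    rw [cm_em, if_neg (by omega)]; rfl
  · exact cs_self _ _

/-- the translations used with the automorphisms of index `k` -/
noncomputable def lam (k : ℤ) (r : M) (j : Fin 6) : M := r * dv j * gk k

lemma lam_orth (k : ℤ) (r r' : R) (j j' : Fin 6) (hne : lam k r j ≠ lam k r' j')
    (h : lam k r j ∈ cs 6 (lam k r' j')) :
    ∑ i, conj (E (pv i) (lam k r j)) * E (pv i) (lam k r' j') = 0 := by
  have hr : (r : M) = r' := by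
    apply cm_ext
    intro i
    rcases lt_or_ge i 6 with hi | hi
    · rw [r.2 i hi, r'.2 i hi]
    · have := h i hi
      unfold lam at this
      simp only [cm_mul, dv_mem j i hi, dv_mem j' i hi, gk_mem k i hi, cm_one, add_zero] at this
      exact this
  have hj : j' ≠ j := by
    rintro rfl
    exact hne (by rw [hr])
  rw [hr]
  have : ∀ i, conj (E (pv i) (lam k r' j)) * E (pv i) (lam k r' j')
      = E (pv i) (dv j') * conj (E (pv i) (dv j)) := by
    intro i
    unfold lam
    rw [E_mul, E_mul, E_mul, E_mul, map_mul, map_mul]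
    linear_combination (E (pv i) (dv j') * conj (E (pv i) (dv j))
      * (E (pv i) (r' : M) * conj (E (pv i) (r' : M)))) * (E_mul_conj (pv i) (gk k))
      + (E (pv i) (dv j') * conj (E (pv i) (dv j))) * (E_mul_conj (pv i) (r' : M))
  simp only [this]
  exact had1 j' j hj

/-- completeness -/
lemma complete {f : M → ℂ} (hf : MemLp f 2 μ)
    (h : ∀ (k : ℤ) (τ : Tk k) (r : R) (j : Fin 6),
      ∫ z, f z * conj (psi μ (au k τ z * (lam k r j)⁻¹)) ∂μ = 0) : f =ᵐ[μ] 0 := by
  have hfi : ∀ (n : ℤ) (x : M), IntegrableOn f (cs n x) μ := fun n x => cs_integrable μ hf n x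
  have hfE : ∀ (n : ℤ) (x : M) (y : ℤ →₀ ZMod 3), IntegrableOn (fun z => f z * conj (E y z))
      (cs n x) μ := by
    intro n x y
    refine Integrable.mul_bdd (c := 1) (hfi n x) ?_ ?_
    · exact (Complex.continuous_conj.comp (E_cont y)).aestronglyMeasurable
    · exact Filter.Eventually.of_forall fun z => by
        rw [RCLike.norm_conj, E_norm]
  -- step 1
  have h1 : ∀ (k : ℤ) (τ : Tk k) (i : Fin 6) (x : M),
      ∫ z in cs (nn k) x, f z * conj (E (yy k τ i) z) ∂μ = 0 := by
    intro k τ i x
    set I : Fin 6 → ℂ := fun i => ∫ z in cs (nn k) x, f z * conj (E (yy k τ i) z) ∂μ with hI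
    set w : M := au k τ x * (gk k)⁻¹ with hw
    set r : R := ⟨mkM (fun i => if 6 ≤ i then cm w i else 0) (by
      obtain ⟨N, hN⟩ := cm_ev w
      refine ⟨N, fun i hi => ?_⟩
      split_ifs
      · exact hN i hi
      · rfl), fun i hi => if_neg (by omega)⟩ with hr
    have hrc : ∀ i, 6 ≤ i → cm (r : M) i = cm w i := fun i hi => if_pos hi
    have hj : ∀ j, ∑ i, (E (pv i) (r * gk k : M) * I i) * E (pv i) (dv j) = 0 := by
      intro j
      have h2 := h k τ r j
      simp only [psi_at] at h2
      have hcs : cs (nn k) ((au k τ).symm (lam k r j)) = cs (nn k) x := by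
        apply cs_eq
        rw [← au_mem, ContinuousMulEquiv.apply_symm_apply]
        intro i hi
        unfold lam
        rw [cm_mul, cm_mul, hrc i hi, dv_mem j i hi, hw, cm_mul, cm_inv, cm_one]
        ring
      rw [hcs] at h2
      have h3 : ∀ z, f z * conj ((cs (nn k) x).indicator
          (fun z => cc μ * ∑ i, conj (E (pv i) (lam k r j)) * E (yy k τ i) z) z)
          = (cs (nn k) x).indicator (fun z => conj (cc μ) * ∑ i, E (pv i) (lam k r j) *
            (f z * conj (E (yy k τ i) z))) z := by
        intro z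
        by_cases hz : z ∈ cs (nn k) x
        · rw [indicator_of_mem hz, indicator_of_mem hz, map_mul, map_sum]
          simp only [map_mul, Complex.conj_conj, Finset.mul_sum]
          refine Finset.sum_congr rfl fun i _ => ?_
          ring
        · rw [indicator_of_notMem hz, indicator_of_notMem hz, map_zero, mul_zero]
      simp only [h3] at h2
      rw [integral_indicator (cs_meas _ _), integral_const_mul, integral_finsetSum _
        (fun i _ => (hfE _ _ _).const_mul _)] at h2
      have h4 := (mul_eq_zero.1 h2).resolve_left (by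
        intro h0
        exact cc_ne μ ((map_eq_zero _).1 h0))
      rw [← h4]
      refine Finset.sum_congr rfl fun i _ => ?_
      rw [integral_const_mul]
      unfold lam
      simp only [E_mul, hI]
      ring
    have h5 : ∑ j, (∑ i', (E (pv i') (r * gk k : M) * I i') * E (pv i') (dv j)) *
        conj (E (pv i) (dv j)) = 0 := by
      simp only [hj, zero_mul, Finset.sum_const_zero]
    simp only [Finset.sum_mul] at h5
    rw [Finset.sum_comm] at h5
    have h6 : ∀ i', ∑ j, E (pv i') (r * gk k : M) * I i' * E (pv i') (dv j) * conj (E (pv i) (dv j))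
        = if i' = i then 6 * (E (pv i) (r * gk k : M) * I i) else 0 := by
      intro i'
      simp only [mul_assoc]
      simp only [← Finset.mul_sum]
      rw [had2]
      split_ifs with hii
      · rw [hii]; ring
      · ring
    simp only [h6, Finset.sum_ite_eq', Finset.mem_univ, if_true] at h5
    have h7 : E (pv i) (r * gk k : M) ≠ 0 := by
      intro h0
      have := E_norm (pv i) (r * gk k : M)
      rw [h0, norm_zero] at this
      exact zero_ne_one this
    have h8 := (mul_eq_zero.1 h5).resolve_left (by norm_num)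
    exact (mul_eq_zero.1 h8).resolve_left h7
  -- step 2
  have h2 : ∀ (k : ℤ) (m : ℕ) (y : ℤ →₀ ZMod 3), k + 1 ≤ nn k - m → y k ≠ 0 →
      (∀ j, y j ≠ 0 → k ≤ j ∧ j < nn k - m) → ∀ x,
      ∫ z in cs (nn k - m) x, f z * conj (E y z) ∂μ = 0 := by
    intro k m
    induction m with
    | zero =>
      intro y _ hy hs x
      rw [Nat.cast_zero, sub_zero] at hs ⊢
      obtain ⟨τ, i, hyy⟩ := yy_surj k y hy hs
      rw [← hyy]
      exact h1 k τ i x
    | succ m ih =>
      intro y hm hy hs x
      have hstep : nn k - ((m + 1 : ℕ) : ℤ) + 1 = nn k - m := by push_cast; ring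
      have hd := detect μ (F := f) (nn k - ((m + 1 : ℕ) : ℤ)) x y (by rw [hstep]; exact hfi _ _)
      rw [hstep] at hd
      rw [Finset.sum_eq_zero] at hd
      · exact (mul_eq_zero.1 hd.symm).resolve_left (by norm_num)
      · intro c _
        rw [ih (y + Finsupp.single (nn k - ((m + 1 : ℕ) : ℤ)) c) (by omega) ?_ ?_ x, mul_zero]
        · rw [Finsupp.add_apply, Finsupp.single_apply, if_neg (by omega), add_zero]
          exact hy
        · intro j hj
          rw [Finsupp.add_apply, Finsupp.single_apply] at hj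
          split_ifs at hj with h3
          · push_cast at h3 hm ⊢
            omega
          · rw [add_zero] at hj
            have := hs j hj
            push_cast at this
            omega
  apply ae_zero μ hf
  apply avg_zero μ hf
  intro k x
  have hd := detect μ (F := f) k x 0 (hfi _ _)
  simp only [E_zero, map_one, mul_one, zero_add] at hd
  rw [← hd, Finset.sum_eq_single 0]
  · simp only [Finsupp.single_zero, E_zero, one_mul, map_one, mul_one]
  · intro c _ hc
    have g := nn_gt k
    have h3 := h2 k (nn k - (k + 1)).toNat (Finsupp.single k c) (by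
      have := Int.toNat_of_nonneg (show 0 ≤ nn k - (k + 1) by omega)
      omega) (by simpa using hc) ?_ x
    · have h4 : nn k - ((nn k - (k + 1)).toNat : ℤ) = k + 1 := by
        rw [Int.toNat_of_nonneg (show 0 ≤ nn k - (k + 1) by omega)]; ring
      rw [h4] at h3
      rw [h3, mul_zero]
    · intro j hj
      rw [Finsupp.single_apply] at hj
      have := Int.toNat_of_nonneg (show 0 ≤ nn k - (k + 1) by omega)
      split_ifs at hj with h5
      · omega
      · exact absurd rfl hj
  · intro h0
    exact absurd (Finset.mem_univ _) h0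

end Pool.Agent.Q83.Wset
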